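import Mathlib

set_option autoImplicit false

/-!
Exponential equations `∑ i, C i * T (lam i a) = 0` over Laurent polynomials: the set of the solutions `a` in an
abelian group is a union of a number of cosets which is bounded by a function of the number of terms.
-/

namespace Pool.Agent.NH45.Exp

open Finset LaurentPolynomial

/-- the solutions -/
def sol {M : Type} [AddCommGroup M] {n : ℕ} (lam : Fin n → (M →+ ℤ)) (C : Fin n → ℤ[T;T⁻¹]) : Set M :=
  {a | ∑ i, C i * T (lam i a) = 0}

/-- `E` is a union of at most `N` sets, each of which is given by a base point `b` and a set of pairs `(i, j)`,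
and consists of all `a` with `lam i (a - b) = lam j (a - b)` for all these pairs `(i, j)` -/
def KU {M : Type} [AddCommGroup M] {ι : Type} (lam : ι → (M →+ ℤ)) (N : ℕ) (E : Set M) : Prop :=
  ∃ F : Finset (M × Finset (ι × ι)), F.card ≤ N ∧
    E = ⋃ p ∈ F, {a | ∀ q ∈ p.2, lam q.1 (a - p.1) = lam q.2 (a - p.1)}

section KU

variable {M : Type} [AddCommGroup M] {ι : Type} {lam : ι → (M →+ ℤ)}

theorem KU.mono {N N' : ℕ} {E : Set M} (h : KU lam N E) (hN : N ≤ N') : KU lam N' E := by
  obtain ⟨F, h1, h2⟩ := h
  exact ⟨F, h1.trans hN, h2⟩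

theorem KU.empty : KU lam 0 (∅ : Set M) := ⟨∅, by simp, by simp⟩

theorem KU.univ : KU lam 1 (Set.univ : Set M) := ⟨{(0, ∅)}, by simp, by simp⟩

theorem KU.union {N N' : ℕ} {E E' : Set M} (h : KU lam N E) (h' : KU lam N' E') :
    KU lam (N + N') (E ∪ E') := by
  classical
  obtain ⟨F, h1, h2⟩ := h
  obtain ⟨F', h1', h2'⟩ := h'
  refine ⟨F ∪ F', (Finset.card_union_le _ _).trans (by omega), ?_⟩
  rw [h2, h2']
  ext a
  simp only [Set.mem_union, Set.mem_iUnion, Finset.mem_union, exists_prop]
  constructor
  · rintro (⟨p, hp, h⟩ | ⟨p, hp, h⟩)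
    · exact ⟨p, Or.inl hp, h⟩
    · exact ⟨p, Or.inr hp, h⟩
  · rintro ⟨p, hp | hp, h⟩
    · exact Or.inl ⟨p, hp, h⟩
    · exact Or.inr ⟨p, hp, h⟩

theorem KU.iUnion {κ : Type} (s : Finset κ) {N : ℕ} (E : κ → Set M)
    (h : ∀ i ∈ s, KU lam N (E i)) : KU lam (s.card * N) (⋃ i ∈ s, E i) := by
  classical
  induction s using Finset.induction_on with
  | empty => simpa using KU.empty
  | insert a s ha ih =>
    rw [Finset.card_insert_of_notMem ha, Finset.set_biUnion_insert, Nat.succ_mul, add_comm]
    exact (h a (Finset.mem_insert_self _ _)).union (ih (fun i hi => h i (Finset.mem_insert_of_mem hi)))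

end KU

theorem coeff_T (n m : ℤ) : (T n : ℤ[T;T⁻¹]).coeff m = if n = m then 1 else 0 :=
  Finsupp.single_apply

theorem T_sum {ι : Type} (s : Finset ι) (f : ι → ℤ) : (T (∑ i ∈ s, f i) : ℤ[T;T⁻¹]) = ∏ i ∈ s, T (f i) := by
  classical
  induction s using Finset.induction_on with
  | empty => simp
  | insert a s ha ih => rw [Finset.sum_insert ha, Finset.prod_insert ha, T_add, ih]

theorem coeff_sum {ι : Type} (s : Finset ι) (f : ι → ℤ[T;T⁻¹]) (j : ℤ) :
    (∑ i ∈ s, f i).coeff j = ∑ i ∈ s, (f i).coeff j := by
  classical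
  induction s using Finset.induction_on with
  | empty => rfl
  | insert a s ha ih =>
    rw [Finset.sum_insert ha, Finset.sum_insert ha, AddMonoidAlgebra.coeff_add, Finsupp.add_apply, ih]

/-- the determinant -/
theorem det_ne {M : Type} [AddCommGroup M] {n : ℕ} (lam : Fin n → (M →+ ℤ)) (a : Fin n → M)
    (h : ∀ σ : Equiv.Perm (Fin n), σ ≠ 1 → ∑ i, (lam (σ i) (a i) - lam i (a i)) ≠ 0) :
    (Matrix.of (fun i j => (T (lam i (a j)) : ℤ[T;T⁻¹]))).det ≠ 0 := by
  classical
  intro h0
  rw [Matrix.det_apply] at h0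
  have h1 : ∀ σ : Equiv.Perm (Fin n), (Equiv.Perm.sign σ • ∏ i, (Matrix.of
      (fun i j => (T (lam i (a j)) : ℤ[T;T⁻¹]))) (σ i) i) =
      ((Equiv.Perm.sign σ : ℤ) : ℤ[T;T⁻¹]) * T (∑ i, lam (σ i) (a i)) := by
    intro σ
    rw [T_sum]
    simp only [Matrix.of_apply, Units.smul_def, zsmul_eq_mul]
  rw [Finset.sum_congr rfl (fun σ _ => h1 σ)] at h0
  have h2 : (∑ σ : Equiv.Perm (Fin n), ((Equiv.Perm.sign σ : ℤ) : ℤ[T;T⁻¹]) *
      T (∑ i, lam (σ i) (a i))).coeff (∑ i, lam i (a i)) = 0 := by rw [h0]; rfl
  rw [coeff_sum, Finset.sum_eq_single 1] at h2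
  · simp at h2
  · intro σ _ hσ
    have h3 : ∑ i, lam (σ i) (a i) ≠ ∑ i, lam i (a i) := by
      intro h4
      apply h σ hσ
      rw [Finset.sum_sub_distrib, h4, sub_self]
    rcases Int.units_eq_one_or (Equiv.Perm.sign σ) with h5 | h5
    · rw [h5]
      simp [h3]
    · rw [h5]
      simp only [Units.val_neg, Units.val_one, Int.cast_neg, Int.cast_one, neg_mul, one_mul]
      have : (-T (∑ i, lam (σ i) (a i)) : ℤ[T;T⁻¹]).coeff (∑ i, lam i (a i)) =
        -((T (∑ i, lam (σ i) (a i)) : ℤ[T;T⁻¹]).coeff (∑ i, lam i (a i))) := rfl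
      rw [this, coeff_T, if_neg h3, neg_zero]
  · intro h; exact absurd (Finset.mem_univ _) h

/-- two equal homomorphisms can be merged -/
theorem merge {M : Type} [AddCommGroup M] {n : ℕ} (lam : Fin (n + 1) → (M →+ ℤ)) (C : Fin (n + 1) → ℤ[T;T⁻¹])
    (i j : Fin (n + 1)) (hij : i ≠ j) (h : ∀ a, lam i a = lam j a) :
    ∃ C' : Fin n → ℤ[T;T⁻¹], sol lam C = sol (fun l => lam (j.succAbove l)) C' := by
  classical
  obtain ⟨l, hl⟩ := Fin.exists_succAbove_eq hij
  refine ⟨fun m => C (j.succAbove m) + if m = l then C j else 0, ?_⟩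
  ext a
  simp only [sol, Set.mem_ofPred_eq]
  rw [Fin.sum_univ_succAbove _ j]
  have : ∑ m, (C (j.succAbove m) + if m = l then C j else 0) * T (lam (j.succAbove m) a) =
      C j * T (lam j a) + ∑ m, C (j.succAbove m) * T (lam (j.succAbove m) a) := by
    simp only [add_mul, Finset.sum_add_distrib, ite_mul, zero_mul, Finset.sum_ite_eq', Finset.mem_univ,
      if_true, hl, h]
    ring
  rw [this]

/-- the solutions are covered by few cosets of proper subgroups -/
theorem cover {M : Type} [AddCommGroup M] {n : ℕ} (lam : Fin n → (M →+ ℤ)) (C : Fin n → ℤ[T;T⁻¹])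
    (hC : C ≠ 0) : ∃ (j : Fin n) (c : Equiv.Perm (Fin n) → ℤ), ∀ a ∈ sol lam C,
      ∃ σ : Equiv.Perm (Fin n), σ j ≠ j ∧ lam (σ j) a - lam j a = c σ := by
  classical
  have hn : 0 < n := by
    rcases Nat.eq_zero_or_pos n with rfl | h
    · exact absurd (funext fun i => i.elim0) hC
    · exact h
  by_contra hcon
  push Not at hcon
  have key : ∀ j : ℕ, j ≤ n → ∃ a : Fin n → M, (∀ i : Fin n, (i : ℕ) < j → a i ∈ sol lam C) ∧
      ∀ σ : Equiv.Perm (Fin n), σ ≠ 1 → (∀ i : Fin n, j ≤ (i : ℕ) → σ i = i) →
        ∑ i, (lam (σ i) (a i) - lam i (a i)) ≠ 0 := by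
    intro j
    induction j with
    | zero =>
      intro _
      refine ⟨fun _ => 0, fun i hi => absurd hi (Nat.not_lt_zero _), ?_⟩
      intro σ hσ h
      exact absurd (Equiv.ext fun i => h i (Nat.zero_le _)) hσ
    | succ j ih =>
      intro hj
      obtain ⟨a, ha1, ha2⟩ := ih (by omega)
      obtain ⟨b, hb1, hb2⟩ := hcon ⟨j, hj⟩ (fun σ => -∑ i, if i = ⟨j, hj⟩ then 0 else
        (lam (σ i) (a i) - lam i (a i)))
      refine ⟨Function.update a ⟨j, hj⟩ b, ?_, ?_⟩
      · intro i hi
        by_cases h : i = ⟨j, hj⟩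
        · subst h
          rw [Function.update_self]
          exact hb1
        · rw [Function.update_of_ne h]
          apply ha1
          have : (i : ℕ) ≠ j := fun h' => h (Fin.ext h')
          omega
      · intro σ hσ hfix
        by_cases h : σ ⟨j, hj⟩ = ⟨j, hj⟩
        · have h1 := ha2 σ hσ (by
            intro i hi
            by_cases h2 : i = ⟨j, hj⟩
            · rw [h2]; exact h
            · apply hfix
              have : (i : ℕ) ≠ j := fun h' => h2 (Fin.ext h')
              omega)
          convert h1 using 1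
          apply Finset.sum_congr rfl
          intro i _
          by_cases h2 : i = ⟨j, hj⟩
          · rw [h2, h, sub_self, sub_self]
          · rw [Function.update_of_ne h2]
        · have h1 := hb2 σ h
          intro h2
          apply h1
          have h3 : ∑ i, (lam (σ i) (Function.update a ⟨j, hj⟩ b i) - lam i (Function.update a ⟨j, hj⟩ b i)) =
              (lam (σ ⟨j, hj⟩) b - lam ⟨j, hj⟩ b) + ∑ i, if i = ⟨j, hj⟩ then 0 else
                (lam (σ i) (a i) - lam i (a i)) := by
            rw [← Finset.add_sum_erase _ _ (Finset.mem_univ (⟨j, hj⟩ : Fin n)), Function.update_self]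
            congr 1
            rw [← Finset.add_sum_erase Finset.univ (fun i => if i = ⟨j, hj⟩ then 0 else
                (lam (σ i) (a i) - lam i (a i))) (Finset.mem_univ (⟨j, hj⟩ : Fin n)), if_pos rfl, zero_add]
            apply Finset.sum_congr rfl
            intro i hi
            have h4 := Finset.ne_of_mem_erase hi
            rw [Function.update_of_ne h4, if_neg h4]
          rw [h3] at h2
          linarith
  obtain ⟨a, ha1, ha2⟩ := key n le_rfl
  have hdet := det_ne lam a (fun σ hσ => ha2 σ hσ (fun i hi => absurd i.2 (by omega)))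
  apply hdet
  rw [← Matrix.exists_vecMul_eq_zero_iff]
  refine ⟨C, hC, ?_⟩
  funext j
  have h1 := ha1 j j.2
  simpa [Matrix.vecMul, dotProduct, sol] using h1

theorem sf_pos (n : ℕ) : 0 < n.superFactorial := by
  induction n with
  | zero => simp
  | succ m ih =>
    rw [Nat.superFactorial_succ]
    exact Nat.mul_pos (Nat.factorial_pos _) ih

/-- from a subgroup given by one relation -/
theorem KU.coset {M : Type} [AddCommGroup M] {n N : ℕ} (lam : Fin (n + 1) → (M →+ ℤ)) (i j : Fin (n + 1))
    (b : M) (E : Set (lam i - lam j).ker)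
    (h : KU (fun l : Fin n => (lam (j.succAbove l)).comp (AddSubgroup.subtype (lam i - lam j).ker)) N E) :
    KU lam N ((fun x : (lam i - lam j).ker => b + (x : M)) '' E) := by
  classical
  obtain ⟨F, h1, h2⟩ := h
  refine ⟨F.image (fun p => (b + (p.1 : M),
    insert (i, j) (p.2.image (fun q => (j.succAbove q.1, j.succAbove q.2))))), (Finset.card_image_le).trans h1, ?_⟩
  ext a
  simp only [Set.mem_image, Set.mem_iUnion, Finset.mem_image, exists_prop, h2, Set.mem_ofPred_eq]
  constructor
  · rintro ⟨x, ⟨p, hp, hx⟩, rfl⟩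
    refine ⟨_, ⟨p, hp, rfl⟩, ?_⟩
    intro q hq
    have e1 : b + (x : M) - (b + (p.1 : M)) = ((x - p.1 : (lam i - lam j).ker) : M) := by
      push_cast; abel
    simp only at hq ⊢
    rw [e1]
    rw [Finset.mem_insert, Finset.mem_image] at hq
    rcases hq with rfl | ⟨q, hq, rfl⟩
    · have := (x - p.1).2
      rw [AddMonoidHom.mem_ker, AddMonoidHom.sub_apply] at this
      simp only
      omega
    · exact hx q hq
  · rintro ⟨_, ⟨p, hp, rfl⟩, hx⟩
    simp only at hx
    have h3 : a - (b + (p.1 : M)) ∈ (lam i - lam j).ker := by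
      rw [AddMonoidHom.mem_ker, AddMonoidHom.sub_apply, hx (i, j) (Finset.mem_insert_self _ _), sub_self]
    refine ⟨p.1 + ⟨_, h3⟩, ⟨p, hp, ?_⟩, ?_⟩
    · intro q hq
      rw [add_sub_cancel_left]
      exact hx (j.succAbove q.1, j.succAbove q.2)
        (Finset.mem_insert_of_mem (Finset.mem_image_of_mem _ hq))
    · push_cast
      abel

/-- the main theorem on exponential equations -/
theorem main (n : ℕ) : ∀ (M : Type) [AddCommGroup M] (lam : Fin n → (M →+ ℤ)) (C : Fin n → ℤ[T;T⁻¹]),
    KU lam n.superFactorial (sol lam C) := by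
  classical
  induction n with
  | zero =>
    intro M _ lam C
    have : sol lam C = Set.univ := by
      ext a; simp [sol]
    rw [this]
    exact KU.univ
  | succ n ih =>
    intro M _ lam C
    rw [Nat.superFactorial_succ]
    by_cases hC : C = 0
    · have : sol lam C = Set.univ := by
        ext a; simp [sol, hC]
      rw [this]
      exact KU.univ.mono (Nat.mul_pos (Nat.factorial_pos _) (sf_pos n))
    · obtain ⟨j, c, hc⟩ := cover lam C hC
      set S : Finset (Equiv.Perm (Fin (n + 1))) := Finset.univ.filter (fun σ => σ j ≠ j) with hS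
      have hU : sol lam C = ⋃ σ ∈ S, (sol lam C ∩ {a | lam (σ j) a - lam j a = c σ}) := by
        ext a
        simp only [Set.mem_iUnion, Set.mem_inter_iff, Set.mem_ofPred_eq, exists_prop]
        constructor
        · intro ha
          obtain ⟨σ, h1, h2⟩ := hc a ha
          exact ⟨σ, by simp [hS, h1], ha, h2⟩
        · rintro ⟨σ, _, h, _⟩
          exact h
      rw [hU]
      have hcard : S.card ≤ (n + 1).factorial := by
        refine (Finset.card_le_univ S).trans ?_
        rw [Fintype.card_perm, Fintype.card_fin]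
      refine (KU.iUnion S (N := n.superFactorial) _ ?_).mono (Nat.mul_le_mul_right _ hcard)
      intro σ hσ
      have hσj : σ j ≠ j := (Finset.mem_filter.1 hσ).2
      by_cases hne : ∃ b, lam (σ j) b - lam j b = c σ
      · obtain ⟨b, hb⟩ := hne
        obtain ⟨C', hC'⟩ := merge (M := (lam (σ j) - lam j).ker) (fun l => (lam l).comp (AddSubgroup.subtype _))
          (fun l => C l * T (lam l b)) (σ j) j hσj (by
            intro a
            have := a.2
            rw [AddMonoidHom.mem_ker] at this
            simp only [AddMonoidHom.coe_comp, AddSubgroup.coe_subtype, Function.comp_apply]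
            rw [AddMonoidHom.sub_apply] at this
            omega)
        have h1 := ih (lam (σ j) - lam j).ker (fun l => (lam (j.succAbove l)).comp (AddSubgroup.subtype _)) C'
        rw [← hC'] at h1
        have h2 := KU.coset lam (σ j) j b _ h1
        convert h2 using 1
        ext a
        simp only [Set.mem_inter_iff, Set.mem_ofPred_eq, Set.mem_image, sol]
        constructor
        · rintro ⟨h3, h4⟩
          refine ⟨⟨a - b, ?_⟩, ?_, by simp⟩
          · rw [AddMonoidHom.mem_ker, AddMonoidHom.sub_apply, map_sub, map_sub]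
            omega
          · rw [← h3]
            apply Finset.sum_congr rfl
            intro i _
            simp only [AddMonoidHom.coe_comp, AddSubgroup.coe_subtype, Function.comp_apply]
            rw [mul_assoc, ← T_add, ← map_add]
            congr 3
            abel
        · rintro ⟨x, h3, rfl⟩
          have h4 := x.2
          rw [AddMonoidHom.mem_ker, AddMonoidHom.sub_apply] at h4
          refine ⟨?_, ?_⟩
          · rw [← h3]
            apply Finset.sum_congr rfl
            intro i _
            simp only [AddMonoidHom.coe_comp, AddSubgroup.coe_subtype, Function.comp_apply]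
            rw [mul_assoc, ← T_add, ← map_add]
          · rw [map_add, map_add]
            omega
      · have : sol lam C ∩ {a | lam (σ j) a - lam j a = c σ} = ∅ := by
          ext a
          simp only [Set.mem_inter_iff, Set.mem_ofPred_eq, Set.mem_empty_iff_false, iff_false, not_and]
          intro _ h
          exact hne ⟨a, h⟩
        rw [this]
        exact KU.empty.mono (Nat.zero_le _)

end Pool.Agent.NH45.Exp
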