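import Pool.Agent.H891R2.DS.All
import Pool.Agent.H891R2.CA.C5a

set_option autoImplicit false

/-!
OS2: parallel classes of edges of a state graph.
-/

namespace Pool.Agent.NH45.OS

open Finset LaurentPolynomial Pool.Agent.H891R2.Jones Pool.Agent.H891R2.MT Pool.Agent.H891R2.DS
open Pool.Agent.H891R2.CA.C5a (rel comps_eq comps_empty comps_insert_of_eq)

variable {k : ℕ}

/-- the vertices of a ribbon graph (the cycles of `rot`) -/
abbrev Vtx (G : Ribbon k) : Type := Quot (fun x y : Fin k × Bool => G.rot x = y)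

/-- the vertex of a dart -/
def vtx (G : Ribbon k) (d : Fin k × Bool) : Vtx G := Quot.mk _ d

/-- the unordered pair of the ends of an edge -/
def ends (G : Ribbon k) (e : Fin k) : Sym2 (Vtx G) := s(vtx G (e, false), vtx G (e, true))

theorem vtx_rot (G : Ribbon k) (d : Fin k × Bool) : vtx G (G.rot d) = vtx G d := 
  (Quot.sound rfl : (Quot.mk (fun x y => G.rot x = y) d) = Quot.mk _ (G.rot d)).symm

/-- a function on darts which is invariant under `rot` -/
theorem inv_of_vtx {α : Type} (G : Ribbon k) (f : Fin k × Bool → α) (hf : ∀ d, f (G.rot d) = f d) 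
    (x y : Fin k × Bool) (h : vtx G x = vtx G y) : f x = f y := by
  have h1 : ∀ x y : Fin k × Bool, G.rot x = y → f x = f y := fun x y h => by rw [← h, hf]
  exact congrArg (Quot.lift f h1) h

theorem inv_of_rel {α : Type} (G : Ribbon k) (S : Finset (Fin k)) (f : Fin k × Bool → α) 
    (hf : ∀ d, f (G.rot d) = f d) (hf' : ∀ e ∈ S, f (e, false) = f (e, true))
    (x y : Fin k × Bool) (h : Quot.mk (rel G S) x = Quot.mk (rel G S) y) : f x = f y := by
  have h1 : ∀ x y : Fin k × Bool, rel G S x y → f x = f y := by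
    rintro ⟨x1, x2⟩ y (h | ⟨h1, h2⟩)
    · rw [← h, hf]
    · rw [h2]
      have h3 := hf' x1 h1
      cases x2
      · exact h3
      · exact h3.symm
  exact congrArg (Quot.lift f h1) h

theorem rel_of_vtx (G : Ribbon k) (S : Finset (Fin k)) (x y : Fin k × Bool) (h : vtx G x = vtx G y) : 
    Quot.mk (rel G S) x = Quot.mk (rel G S) y := by
  refine inv_of_vtx G (fun d => Quot.mk (rel G S) d) ?_ x y h
  intro d
  have h1 : rel G S d (G.rot d) := Or.inl rfl
  exact (Quot.sound h1).symm

theorem rel_flip (G : Ribbon k) (S : Finset (Fin k)) (e : Fin k) (he : e ∈ S) : 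
    Quot.mk (rel G S) (e, false) = Quot.mk (rel G S) (e, true) := 
  Quot.sound (Or.inr ⟨he, rfl⟩)

/-- no loops -/
def NoLoop (G : Ribbon k) : Prop := ∀ H : Finset (Fin k), H.Nonempty → G.comps H + 1 ≤ G.verts

theorem comps_mono (G : Ribbon k) (S U : Finset (Fin k)) (h : S ⊆ U) : G.comps U ≤ G.comps S := by
  have := D6.comps_anti G S U
  rwa [Finset.union_eq_right.2 h] at this

theorem comps_singleton (G : Ribbon k) (hG : NoLoop G) (e : Fin k) : G.comps {e} + 1 = G.verts := by
  have h1 := hG {e} (singleton_nonempty e)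
  have h2 := T3a.mono G 1 ∅ {e} (by simp) (empty_subset _)
  rw [comps_empty, card_empty, card_singleton] at h2
  omega

theorem vtx_ne (G : Ribbon k) (hG : NoLoop G) (e : Fin k) : vtx G (e, false) ≠ vtx G (e, true) := by
  intro h
  have h1 := comps_insert_of_eq G ∅ e (rel_of_vtx G ∅ _ _ h)
  rw [insert_empty_eq, comps_empty] at h1
  have := comps_singleton G hG e
  omega

theorem ends_eq_of_comps (G : Ribbon k) (hG : NoLoop G) (e e' : Fin k) 
    (h : G.comps {e, e'} + 1 = G.verts) : ends G e = ends G e' := by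
  classical
  have h0 := comps_singleton G hG e
  have h1 := T3a.comps_insert G {e} e'
  have h2 : insert e' ({e} : Finset (Fin k)) = {e, e'} := Finset.pair_comm _ _
  rw [h2] at h1
  have h3 : Quot.mk (rel G {e}) (e', false) = Quot.mk (rel G {e}) (e', true) := by
    rcases h1 with h1 | h1
    · exact h1.1
    · omega
  have h4 := inv_of_rel G {e} (fun d => if vtx G d = vtx G (e, true) then vtx G (e, false) else vtx G d) 
    (fun d => by simp only [vtx_rot]) (fun e'' he'' => by
      rw [mem_singleton] at he''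
      subst he''
      simp) _ _ h3
  have h5 := vtx_ne G hG e'
  unfold ends
  rw [Sym2.eq_iff]
  by_cases h6 : vtx G (e', false) = vtx G (e, true)
  · rw [if_pos h6] at h4
    right
    refine ⟨?_, h6.symm⟩
    rw [if_neg (fun h7 => h5 (h6.trans h7.symm))] at h4
    exact h4
  · rw [if_neg h6] at h4
    by_cases h7 : vtx G (e', true) = vtx G (e, true)
    · rw [if_pos h7] at h4
      exact Or.inl ⟨h4.symm, h7.symm⟩
    · rw [if_neg h7] at h4
      exact absurd h4 h5

theorem comps_insert_ends (G : Ribbon k) (F : Finset (Fin k)) (e e' : Fin k) (he : e ∈ F)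
    (h : ends G e = ends G e') : G.comps (insert e' F) = G.comps F := by
  apply comps_insert_of_eq
  have h1 := rel_flip G F e he
  unfold ends at h
  rw [Sym2.eq_iff] at h
  rcases h with ⟨h2, h3⟩ | ⟨h2, h3⟩
  · exact (rel_of_vtx G F _ _ h2).symm.trans (h1.trans (rel_of_vtx G F _ _ h3))
  · exact (rel_of_vtx G F _ _ h3).symm.trans (h1.symm.trans (rel_of_vtx G F _ _ h2))

theorem comps_of_ends (G : Ribbon k) (hG : NoLoop G) (F : Finset (Fin k)) (s : Sym2 (Vtx G)) 
    (hF : F.Nonempty) (h : ∀ e ∈ F, ends G e = s) : G.comps F + 1 = G.verts := by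
  classical
  induction hF using Finset.Nonempty.cons_induction with
  | singleton a => exact comps_singleton G hG a
  | cons a F ha hF ih =>
    obtain ⟨e, he⟩ := hF
    rw [cons_eq_insert]
    have h1 : ends G e = ends G a := by
      rw [h e (by rw [cons_eq_insert]; exact mem_insert_of_mem he), 
        h a (by rw [cons_eq_insert]; exact mem_insert_self _ _)]
    rw [comps_insert_ends G F e a he h1]
    exact ih (fun e he => h e (by rw [cons_eq_insert]; exact mem_insert_of_mem he))

theorem ends_of_comps (G : Ribbon k) (hG : NoLoop G) (F : Finset (Fin k)) 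
    (h : G.comps F + 1 = G.verts) (e e' : Fin k) (he : e ∈ F) (he' : e' ∈ F) : 
    ends G e = ends G e' := by
  apply ends_eq_of_comps G hG
  have h1 := comps_mono G {e, e'} F (by
    intro x hx; rw [mem_insert, mem_singleton] at hx
    rcases hx with rfl | rfl
    · exact he
    · exact he')
  have h2 := hG {e, e'} ⟨e, by simp⟩
  omega

open Classical in
/-- the sum over the sets of parallel edges -/
theorem sum_classes (G : Ribbon k) (hG : NoLoop G) (U : Finset (Fin k)) :
    ∑ F ∈ U.powerset.erase ∅, (if G.comps F + 1 = G.verts then (-1 : ℤ) ^ F.card else 0) = 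
      - ((U.image (ends G)).card : ℤ) := by
  classical
  rw [← sum_filter]
  have h1 : (U.powerset.erase ∅).filter (fun F => G.comps F + 1 = G.verts) = 
      (U.image (ends G)).biUnion (fun s => (U.filter (fun e => ends G e = s)).powerset.erase ∅) := by
    ext F
    simp only [mem_filter, mem_erase, mem_powerset, mem_biUnion, mem_image]
    constructor
    · rintro ⟨⟨h2, h3⟩, h4⟩
      obtain ⟨e, he⟩ := nonempty_iff_ne_empty.2 h2
      refine ⟨ends G e, ⟨e, h3 he, rfl⟩, h2, ?_⟩
      intro e' he'
      rw [mem_filter]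
      exact ⟨h3 he', ends_of_comps G hG F h4 e' e he' he⟩
    · rintro ⟨s, -, h2, h3⟩
      refine ⟨⟨h2, fun e he => (mem_filter.1 (h3 he)).1⟩, ?_⟩
      exact comps_of_ends G hG F s (nonempty_iff_ne_empty.2 h2) (fun e he => (mem_filter.1 (h3 he)).2)
  rw [h1, sum_biUnion]
  · have h2 : ∀ s ∈ U.image (ends G), 
        ∑ F ∈ (U.filter (fun e => ends G e = s)).powerset.erase ∅, (-1 : ℤ) ^ F.card = -1 := by
      intro s hs
      rw [mem_image] at hs
      obtain ⟨e, he, hes⟩ := hs
      have h3 : (U.filter (fun e => ends G e = s)).Nonempty := ⟨e, mem_filter.2 ⟨he, hes⟩⟩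
      have h4 := Finset.sum_powerset_neg_one_pow_card_of_nonempty h3
      rw [← add_sum_erase _ _ (empty_mem_powerset _), card_empty, pow_zero] at h4
      linarith
    rw [sum_congr rfl h2, sum_const, nsmul_eq_mul]
    ring
  · intro s _ t _ hst
    simp only [Function.onFun]
    rw [disjoint_left]
    intro F hF hF'
    rw [mem_erase, mem_powerset] at hF hF'
    obtain ⟨e, he⟩ := nonempty_iff_ne_empty.2 hF.1
    exact hst (((mem_filter.1 (hF.2 he)).2.symm).trans (mem_filter.1 (hF'.2 he)).2)

/-- parallel edges lie on the same side of the state circles -/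
theorem same_side (Γ : Ribbon k) (hΓ : Γ.Planar) (S : Finset (Fin k)) (hG : NoLoop (stateGraph Γ S)) 
    (F : Finset (Fin k)) (hF : (stateGraph Γ S).comps F + 1 = (stateGraph Γ S).verts) : 
    F ⊆ S ∨ F ⊆ Sᶜ := by
  by_contra hcon
  push Not at hcon
  obtain ⟨h1, h2⟩ := hcon
  rw [not_subset] at h1 h2
  obtain ⟨e', he', heS'⟩ := h1
  obtain ⟨e, he, heS⟩ := h2
  rw [mem_compl, not_not] at heS
  have hne : e ≠ e' := fun h => heS' (h ▸ heS)
  have a0 := regions Γ hΓ S ∅
  have a1 := regions Γ hΓ S {e}
  have a2 := regions Γ hΓ S {e'}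
  have a3 := regions Γ hΓ S {e, e'}
  have b1 := comps_singleton _ hG e
  have b2 := comps_singleton _ hG e'
  have b3 : (stateGraph Γ S).comps {e, e'} + 1 = (stateGraph Γ S).verts := by
    have h1 := comps_mono (stateGraph Γ S) {e, e'} F (by
      intro x hx; rw [mem_insert, mem_singleton] at hx
      rcases hx with rfl | rfl
      · exact he
      · exact he')
    have h2 := hG {e, e'} ⟨e, by simp⟩
    omega
  have c1 : Sᶜ \ {e} = Sᶜ := by
    rw [Finset.sdiff_eq_self_iff_disjoint, disjoint_singleton_right, mem_compl, not_not]; exact heS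
  have c2 : S \ {e'} = S := by
    rw [Finset.sdiff_eq_self_iff_disjoint, disjoint_singleton_right]; exact heS'
  have c3 : S \ {e, e'} = S \ {e} := by
    ext x; simp only [mem_sdiff, mem_insert, mem_singleton]
    constructor
    · rintro ⟨h1, h2⟩; exact ⟨h1, fun h => h2 (Or.inl h)⟩
    · rintro ⟨h1, h2⟩
      refine ⟨h1, ?_⟩
      rintro (h | h)
      · exact h2 h
      · exact heS' (h ▸ h1)
  have c4 : Sᶜ \ {e, e'} = Sᶜ \ {e'} := by
    ext x; simp only [mem_sdiff, mem_insert, mem_singleton, mem_compl]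
    constructor
    · rintro ⟨h1, h2⟩; exact ⟨h1, fun h => h2 (Or.inr h)⟩
    · rintro ⟨h1, h2⟩
      refine ⟨h1, ?_⟩
      rintro (h | h)
      · exact h1 (h ▸ heS)
      · exact h2 h
  rw [sdiff_empty, sdiff_empty, card_empty, comps_empty] at a0
  rw [c1, card_singleton] at a1
  rw [c2, card_singleton] at a2
  rw [c3, c4, card_pair hne] at a3
  omega

/-- the number of curves of a set of edges inside of the state circles -/
theorem curves_of_subset (Γ : Ribbon k) (hΓ : Γ.Planar) (S F : Finset (Fin k)) (h : F ⊆ S) :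
    ((stateGraph Γ S).curves F : ℤ) = 
      F.card - (stateGraph Γ S).verts + 2 * (stateGraph Γ S).comps F := by
  have a0 := regions Γ hΓ S ∅
  have a1 := regions Γ hΓ S F
  have c1 : Sᶜ \ F = Sᶜ := by
    rw [Finset.sdiff_eq_self_iff_disjoint, disjoint_comm]
    exact disjoint_of_subset_left h disjoint_compl_right
  rw [sdiff_empty, sdiff_empty, card_empty, comps_empty] at a0
  rw [c1] at a1
  have h1 : symmDiff S F = S \ F := by
    ext x
    rw [mem_symmDiff, mem_sdiff]
    constructor
    · rintro (h2 | h2)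
      · exact h2
      · exact absurd (h h2.1) h2.2
    · exact fun h2 => Or.inl h2
  have h2 : (S \ F).card + F.card = S.card := by
    rw [card_sdiff_of_subset h]
    have := card_le_card h
    omega
  rw [sg_curves, h1, T2.curves_eq Γ hΓ]
  have h3 := T2.curves_eq Γ hΓ S
  rw [← sg_verts] at h3
  omega

theorem curves_of_class (Γ : Ribbon k) (hΓ : Γ.Planar) (S : Finset (Fin k)) 
    (hG : NoLoop (stateGraph Γ S)) 
    (F : Finset (Fin k)) (hF : (stateGraph Γ S).comps F + 1 = (stateGraph Γ S).verts) : 
    ((stateGraph Γ S).curves F : ℤ) = F.card + (stateGraph Γ S).verts - 2 := by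
  rcases same_side Γ hΓ S hG F hF with h | h
  · have := curves_of_subset Γ hΓ S F h
    omega
  · have h1 := curves_of_subset (stateGraph Γ univ) (planar_dual Γ hΓ) Sᶜ F h
    rw [sg_dual] at h1
    omega

end Pool.Agent.NH45.OS
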