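import Pool.Agent.NH45.OS2
import Pool.Agent.H891R2.SI.S6

set_option autoImplicit false

/-!
OS3: the second coefficient of the state sum.
-/

namespace Pool.Agent.NH45.OS

open Finset LaurentPolynomial Pool.Agent.H891R2.Jones Pool.Agent.H891R2.MT Pool.Agent.H891R2.DS
open Pool.Agent.H891R2.MT.T4b

variable {k : ℕ}

/-- the strong rank inequality -/
def Rank3 (G : Ribbon k) (M : Finset (Fin k)) : Prop := 
  ∀ H : Finset (Fin k), (H ∩ M).Nonempty → 
    (∀ e ∈ H ∩ M, G.comps (H.erase e) = G.comps H) → G.comps H + 2 * (H ∩ M).card + 2 ≤ G.verts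

theorem Rank3.rank {G : Ribbon k} {M : Finset (Fin k)} (h : Rank3 G M) : 
    ∀ H : Finset (Fin k), (H ∩ M).Nonempty → 
      (∀ e ∈ H ∩ M, G.comps (H.erase e) = G.comps H) → G.comps H + 2 * (H ∩ M).card + 1 ≤ G.verts := by
  intro H h1 h2
  have := h H h1 h2
  omega

/-- the form of the blocks for `F ≠ ∅` -/
theorem blk_form (G : Ribbon k) (hk : 0 < k) (M F : Finset (Fin k)) (hFM : Disjoint F M)
    (hrank : Rank3 G M) :
    ∃ B ⊆ M, ((M \ B).Nonempty → G.comps (F ∪ (M \ B)) + 2 * (M \ B).card + 2 ≤ G.verts) ∧ 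
      (∀ Q' ⊆ M \ B, B.card ≤ G.curves (F ∪ Q') - 1) ∧ 
      blk G M F = ∑ Q' ∈ (M \ B).powerset, T (2 * F.card - 2 * Q'.card) *
        ((-1) ^ B.card * T (2 * B.card) * (-T 2 - T (-2)) ^ (G.curves (F ∪ Q') - 1 - B.card)) := by
  classical
  have bridges_union := Pool.Agent.H891R2.CA.C6.bridges_union G
  have binomial := Pool.Agent.H891R2.CA.C7.binomial (k := k)
  set H := F ∪ M with hH
  set B := M.filter (fun e => G.comps (H.erase e) = G.comps H + 1) with hBdef
  have hBR : B ⊆ M := filter_subset _ _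
  have hBbr : ∀ e ∈ B, G.comps (H.erase e) = G.comps H + 1 := fun e he => (mem_filter.mp he).2
  have hBH : B ⊆ H := hBR.trans subset_union_right
  have hdis : ∀ Q' ⊆ M \ B, Disjoint (F ∪ Q') B := by
    intro Q' hQ'
    rw [disjoint_union_left]
    exact ⟨disjoint_of_subset_right hBR hFM, disjoint_of_subset_left hQ' sdiff_disjoint⟩
  have hcurv : ∀ Q' ⊆ M \ B, ∀ Q'' ⊆ B,
      G.curves (F ∪ Q') = G.curves (F ∪ (Q' ∪ Q'')) + Q''.card := by
    intro Q' hQ' Q'' hQ''
    rw [← union_assoc]
    exact D8.curves_bridges G (fun X e he h => curves_bridge G X e he h) H Q'' (F ∪ Q') (hQ''.trans hBH)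
      (fun e he => hBbr e (hQ'' he))
      (union_subset_union le_rfl (hQ'.trans sdiff_subset))
      (disjoint_of_subset_right hQ'' (hdis Q' hQ'))
  refine ⟨B, hBR, ?_, ?_, ?_⟩
  · intro hne
    have h1 : (F ∪ (M \ B)) ∩ M = M \ B := by
      ext x
      simp only [mem_inter, mem_union, mem_sdiff]
      constructor
      · rintro ⟨h | h, hR⟩
        · exact absurd hR (disjoint_left.mp hFM h)
        · exact h
      · intro h
        exact ⟨Or.inr h, h.1⟩
    have h2 := hrank (F ∪ (M \ B)) (by rw [h1]; exact hne)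
    rw [h1] at h2
    apply h2
    intro e he
    have heR : e ∈ M := (mem_sdiff.mp he).1
    have heB : e ∉ B := (mem_sdiff.mp he).2
    have heH : e ∈ H := mem_union_right _ heR
    have h3 : G.comps (H.erase e) = G.comps H := by
      have h4 := T3a.comps_erase G H e heH
      have h5 : G.comps (H.erase e) ≠ G.comps H + 1 := fun h => heB (mem_filter.mpr ⟨heR, h⟩)
      omega
    have hunion : F ∪ (M \ B) ∪ B = H := by
      rw [union_assoc, sdiff_union_of_subset hBR]
    have h6 := bridges_union H B (F ∪ (M \ B)) hBH hBbr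
      (union_subset_union le_rfl sdiff_subset) (hdis _ le_rfl)
    rw [hunion] at h6
    have h7 := bridges_union H B ((F ∪ (M \ B)).erase e) hBH hBbr
      ((erase_subset _ _).trans (union_subset_union le_rfl sdiff_subset))
      (disjoint_of_subset_left (erase_subset _ _) (hdis _ le_rfl))
    have h8 : (F ∪ (M \ B)).erase e ∪ B = H.erase e := by
      ext x
      by_cases hxe : x = e
      · subst hxe
        simp [heB]
      · have : x ∈ F ∪ (M \ B) ∪ B ↔ x ∈ H := by rw [hunion]
        simp only [mem_union, mem_erase] at this ⊢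
        tauto
    rw [h8, h3, ← h6] at h7
    exact h7
  · intro Q' hQ'
    have h1 := hcurv Q' hQ' B le_rfl
    have h2 := D8.curves_pos G hk (F ∪ (Q' ∪ B))
    omega
  · unfold blk
    rw [D8.sum_split M B hBR]
    apply Finset.sum_congr rfl
    intro Q' hQ'
    rw [mem_powerset] at hQ'
    have hx : B.card ≤ G.curves (F ∪ Q') - 1 := by
      have h1 := hcurv Q' hQ' B le_rfl
      have h2 := D8.curves_pos G hk (F ∪ (Q' ∪ B))
      omega
    rw [← binomial B _ hx, mul_sum]
    apply Finset.sum_congr rfl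
    intro Q'' hQ''
    rw [mem_powerset] at hQ''
    have h1 := hcurv Q' hQ' Q'' hQ''
    have h3 : G.curves (F ∪ (Q' ∪ Q'')) - 1 = G.curves (F ∪ Q') - 1 - Q''.card := by omega
    have h4 : (Q' ∪ Q'').card = Q'.card + Q''.card :=
      card_union_of_disjoint (disjoint_of_subset_right hQ''
        (disjoint_of_subset_left hQ' sdiff_disjoint))
    rw [h3, ← mul_assoc, ← T_add, h4]
    congr 2
    push_cast; ring

theorem coeff_d_pow2 (j : ℕ) :
    ((-T 2 - T (-2) : ℤ[T;T⁻¹]) ^ j).coeff (-(2 * j) + 4) = (-1) ^ j * j := by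
  induction j with
  | zero =>
    rw [pow_zero]
    have := C_apply (R := ℤ) 1 4
    rw [map_one] at this
    simp [this]
  | succ j ih =>
    have h1 : (-T 2 - T (-2) : ℤ[T;T⁻¹]) ^ (j + 1) =
        -((-T 2 - T (-2)) ^ j * T 2) + -((-T 2 - T (-2)) ^ j * T (-2)) := by ring
    rw [h1, AddMonoidAlgebra.coeff_add, Finsupp.add_apply, AddMonoidAlgebra.coeff_neg,
      AddMonoidAlgebra.coeff_neg, Finsupp.neg_apply, Finsupp.neg_apply, D10.coeff_mul_T, D10.coeff_mul_T]
    have e1 : (-(2 * ((j + 1 : ℕ) : ℤ)) + 4 - 2) = -(2 * j) := by push_cast; ring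
    have e2 : (-(2 * ((j + 1 : ℕ) : ℤ)) + 4 - -2) = -(2 * j) + 4 := by push_cast; ring
    rw [e1, e2, D10.coeff_d_pow, ih, pow_succ]
    push_cast
    ring

/-- a term: coefficients -/
theorem term_coeff (a b : ℤ) (m n : ℕ) (j : ℤ) : 
    (T a * ((-1) ^ m * T b * (-T 2 - T (-2)) ^ n) : ℤ[T;T⁻¹]).coeff (a + b + j) = 
      (-1) ^ m * ((-T 2 - T (-2) : ℤ[T;T⁻¹]) ^ n).coeff j := by
  have h2 : (T a * ((-1) ^ m * T b * (-T 2 - T (-2)) ^ n) : ℤ[T;T⁻¹]) = 
      C ((-1) ^ m) * ((-T 2 - T (-2)) ^ n * T (a + b)) := by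
    rw [map_pow, map_neg, map_one, T_add]
    ring
  rw [h2, ← LaurentPolynomial.smul_eq_C_mul, AddMonoidAlgebra.coeff_smul, Finsupp.smul_apply,
    D10.coeff_mul_T, smul_eq_mul]
  congr 2
  ring

theorem term_GE (a b : ℤ) (m n : ℕ) : 
    GE (T a * ((-1) ^ m * T b * (-T 2 - T (-2)) ^ n) : ℤ[T;T⁻¹]) (a + b - 2 * n) := by
  have hS := (SIn.T a).mul (((SIn_sgn m).mul (SIn.T b)).mul (SIn_d.pow n))
  intro j hj
  have := (hS j hj).1
  linarith

/-- the second coefficient of the blocks for `F ≠ ∅` -/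
theorem blk_second (G : Ribbon k) (hk : 0 < k) (M F : Finset (Fin k)) (hFM : Disjoint F M) 
    (hF : F.Nonempty) (hrank : Rank3 G M) (hG : NoLoop G) 
    (hcur : G.comps F + 1 = G.verts → (G.curves F : ℤ) = F.card + G.verts - 2) : 
    (blk G M F).coeff (4 * M.card - 2 * G.verts + 6) = 
      (-1) ^ (G.verts + 1) * (if G.comps F + 1 = G.verts then (-1 : ℤ) ^ F.card else 0) := by
  obtain ⟨B, hB, h1, h2, h3⟩ := blk_form G hk M F hFM hrank
  have hcardM : M.card = (M \ B).card + B.card := by
    rw [card_sdiff_of_subset hB]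
    have := card_le_card hB
    omega
  have hcardU : ∀ Q ⊆ M, (F ∪ Q).card = F.card + Q.card := fun Q hQ =>
    card_union_of_disjoint (disjoint_of_subset_right hQ hFM)
  by_cases hne : (M \ B).Nonempty
  · have h4 := h1 hne
    have hpos : 0 < (M \ B).card := card_pos.2 hne
    have h5 : G.comps F + 1 ≠ G.verts := by
      intro h
      have h6 := T3a.mono G (F ∪ (M \ B)).card F (F ∪ (M \ B)) (by omega) subset_union_left
      rw [hcardU _ sdiff_subset] at h6
      omega
    rw [if_neg h5, mul_zero, h3]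
    have h7 : GE (∑ Q' ∈ (M \ B).powerset, T (2 * F.card - 2 * Q'.card) *
        ((-1) ^ B.card * T (2 * B.card) * (-T 2 - T (-2)) ^ (G.curves (F ∪ Q') - 1 - B.card)) : ℤ[T;T⁻¹]) 
        (4 * M.card - 2 * G.verts + 10) := by
      apply D8.GE_sum
      intro Q' hQ'
      rw [mem_powerset] at hQ'
      have hx := h2 Q' hQ'
      have hx1 := D8.curves_pos G hk (F ∪ Q')
      intro j hj
      refine le_trans ?_ (term_GE _ _ _ _ j hj)
      have h1 := curves_le G (F ∪ Q')
      have h2 := hcardU Q' (hQ'.trans sdiff_subset)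
      have h3 := T3a.mono G (F ∪ (M \ B)).card (F ∪ Q') (F ∪ (M \ B)) (by omega)
        (union_subset_union le_rfl hQ')
      rw [h2, hcardU _ sdiff_subset] at h3
      rw [h2] at h1
      have h4 : ((G.curves (F ∪ Q') - 1 - B.card : ℕ) : ℤ) = G.curves (F ∪ Q') - 1 - B.card := by
        omega
      rw [h4]
      push_cast at h1 ⊢
      omega
    exact D10.GE.coeff_eq h7 (by omega)
  · rw [not_nonempty_iff_eq_empty] at hne
    rw [hne, card_empty, zero_add] at hcardM
    have h4 := h2 ∅ (empty_subset _)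
    rw [union_empty] at h4
    rw [h3, hne, powerset_empty, sum_singleton, union_empty, ← hcardM, card_empty]
    have hx1 := D8.curves_pos G hk F
    have e1 : 2 * (F.card : ℤ) - 2 * ((0 : ℕ) : ℤ) = 2 * F.card := by push_cast; ring
    rw [e1]
    have h5 : ((G.curves F - 1 - M.card : ℕ) : ℤ) = G.curves F - 1 - M.card := by
      omega
    have h6 := curves_le G F
    by_cases hc : G.comps F + 1 = G.verts
    · rw [if_pos hc]
      have h7 := hcur hc
      have e2 : 4 * (M.card : ℤ) - 2 * G.verts + 6 = 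
          2 * F.card + 2 * M.card + -(2 * ((G.curves F - 1 - M.card : ℕ) : ℤ)) := by
        rw [h5]; omega
      rw [e2, term_coeff, D10.coeff_d_pow, ← pow_add, ← pow_add]
      have e3 : M.card + (G.curves F - 1 - M.card) + 4 = G.verts + 1 + F.card := by omega
      rw [← e3, pow_add _ _ 4]
      ring
    · rw [if_neg hc, mul_zero]
      have h8 := hG F hF
      have h9 := term_GE (2 * F.card) (2 * M.card) M.card (G.curves F - 1 - M.card)
      refine D10.GE.coeff_eq h9 ?_
      rw [h5]
      have h10 : (G.comps F : ℤ) + 2 ≤ G.verts := by omega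
      linarith

open Classical in
/-- the second coefficient -/
theorem second (G : Ribbon k) (hk : 0 < k) (M : Finset (Fin k)) (hrank : Rank3 G M) (hG : NoLoop G) 
    (hcur : ∀ F, G.comps F + 1 = G.verts → (G.curves F : ℤ) = F.card + G.verts - 2) : 
    (PP G M).coeff (4 * M.card - 2 * G.verts + 6) = 
      (-1) ^ (G.verts + 1) * (G.verts - 1 - M.card - ((Mᶜ).image (ends G)).card) := by
  classical
  obtain ⟨hrv, hE⟩ := blk_empty G hk M hrank.rank
  have hmem : (∅ : Finset (Fin k)) ∈ (Mᶜ).powerset := Finset.empty_mem_powerset _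
  have hsplit : PP G M = blk G M ∅ + ∑ F ∈ (Mᶜ).powerset.erase ∅, blk G M F := by
    rw [Finset.add_sum_erase _ _ hmem]
    exact D10.PP_eq G M
  rw [hsplit, AddMonoidAlgebra.coeff_add, Finsupp.add_apply, Pool.Agent.H891R2.SI.S6.coeff_sum']
  have h1 : ∀ F ∈ (Mᶜ).powerset.erase ∅, (blk G M F).coeff (4 * M.card - 2 * G.verts + 6) = 
      (-1) ^ (G.verts + 1) * (if G.comps F + 1 = G.verts then (-1 : ℤ) ^ F.card else 0) := by
    intro F hF
    rw [mem_erase, mem_powerset] at hF
    refine blk_second G hk M F ?_ (nonempty_iff_ne_empty.2 hF.1) hrank hG (hcur F)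
    rw [disjoint_left]
    intro x hx
    exact mem_compl.1 (hF.2 hx)
  rw [sum_congr rfl h1, ← mul_sum, sum_classes G hG Mᶜ, hE]
  have h2 : ((-1) ^ M.card * T (2 * M.card) * (-T 2 - T (-2)) ^ (G.verts - 1 - M.card) : 
      ℤ[T;T⁻¹]).coeff (4 * M.card - 2 * G.verts + 6) = 
      (-1) ^ (G.verts + 1) * (G.verts - 1 - M.card) := by
    have h3 := term_coeff 0 (2 * M.card) M.card (G.verts - 1 - M.card) 
      (-(2 * ((G.verts - 1 - M.card : ℕ) : ℤ)) + 4)
    have h4 : ((G.verts - 1 - M.card : ℕ) : ℤ) = G.verts - 1 - M.card := by omega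
    rw [coeff_d_pow2, T_zero, one_mul, ← mul_assoc, ← pow_add] at h3
    have e2 : 4 * (M.card : ℤ) - 2 * G.verts + 6 = 
        0 + 2 * M.card + (-(2 * ((G.verts - 1 - M.card : ℕ) : ℤ)) + 4) := by
      rw [h4]; ring
    rw [e2, h3]
    have e3 : M.card + (G.verts - 1 - M.card) + 2 = G.verts + 1 := by omega
    rw [← e3, pow_add _ _ 2, h4]
    ring
  rw [h2]
  ring

/-- an edge in `M` is not parallel to another edge -/
theorem not_parallel (G : Ribbon k) (M : Finset (Fin k)) (hrank : Rank3 G M) (hG : NoLoop G) 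
    (e e' : Fin k) (he : e ∈ M) (hne : e ≠ e') : ends G e ≠ ends G e' := by
  intro h
  have h1 : G.comps {e, e'} + 1 = G.verts := comps_of_ends G hG {e, e'} (ends G e) ⟨e, by simp⟩ (by
    intro x hx
    rw [mem_insert, mem_singleton] at hx
    rcases hx with rfl | rfl
    · rfl
    · exact h.symm)
  have h2 := hrank {e, e'} ⟨e, mem_inter.2 ⟨by simp, he⟩⟩ (by
    intro x hx
    have hx' := (mem_inter.1 hx).1
    rw [mem_insert, mem_singleton] at hx'
    have h3 := comps_singleton G hG e
    have h4 := comps_singleton G hG e'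
    rcases hx' with rfl | rfl
    · have : ({x, e'} : Finset (Fin k)).erase x = {e'} := by
        ext y; simp only [mem_erase, mem_insert, mem_singleton]
        constructor
        · rintro ⟨h5, h6 | h6⟩
          · exact absurd h6 h5
          · exact h6
        · rintro rfl; exact ⟨hne.symm, Or.inr rfl⟩
      rw [this]; omega
    · have : ({e, x} : Finset (Fin k)).erase x = {e} := by
        ext y; simp only [mem_erase, mem_insert, mem_singleton]
        constructor
        · rintro ⟨h5, h6 | h6⟩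
          · exact h6
          · exact absurd h6 h5
        · rintro rfl; exact ⟨hne, Or.inl rfl⟩
      rw [this]; omega)
  have h3 : 0 < (({e, e'} : Finset (Fin k)) ∩ M).card := card_pos.2 ⟨e, mem_inter.2 ⟨by simp, he⟩⟩
  omega

open Classical in
/-- the number of classes of parallel edges -/
theorem card_classes (G : Ribbon k) (M : Finset (Fin k)) (hrank : Rank3 G M) (hG : NoLoop G) :
    (Set.range (ends G)).ncard = M.card + ((Mᶜ).image (ends G)).card := by
  classical
  have h1 : Set.range (ends G) = (((univ : Finset (Fin k)).image (ends G) : Finset (Sym2 (Vtx G))) : 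
      Set (Sym2 (Vtx G))) := by
    rw [coe_image, coe_univ, Set.image_univ]
  rw [h1, Set.ncard_coe_finset]
  have h2 : (univ : Finset (Fin k)).image (ends G) = M.image (ends G) ∪ (Mᶜ).image (ends G) := by
    rw [← image_union, union_compl]
  rw [h2, card_union_of_disjoint]
  · congr 1
    apply card_image_of_injOn
    intro e he e' _ h
    by_contra hne
    exact not_parallel G M hrank hG e e' he hne h
  · rw [disjoint_left]
    intro s hs hs'
    rw [mem_image] at hs hs'
    obtain ⟨e, he, hes⟩ := hs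
    obtain ⟨e', he', hes'⟩ := hs'
    refine not_parallel G M hrank hG e e' he ?_ (hes.trans hes'.symm)
    rintro rfl
    exact (mem_compl.1 he') he

end Pool.Agent.NH45.OS
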