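import Pool.Agent.NH45.OS3

set_option autoImplicit false

/-!
OS4: if the second coefficient vanishes, the circles of the state can be coloured with two colours.
-/

namespace Pool.Agent.NH45.OS

open Finset LaurentPolynomial Pool.Agent.H891R2.Jones Pool.Agent.H891R2.MT Pool.Agent.H891R2.DS
open Pool.Agent.H891R2.CA.C5a (rel comps_eq comps_empty comps_insert_of_eq)

variable {k : ℕ}

/-- the colouring of the circles of the state -/
def TwoCol (G : Ribbon k) (χ : Fin k × Bool → Bool) : Prop := 
  (∀ d, χ (G.rot d) = χ d) ∧ ∀ d, χ (H891R2.MT.flip d) = !(χ d)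

theorem two_col' (G : Ribbon k) (hk : 0 < k) (hG : NoLoop G) (hcon : G.comps univ = 1) : 
    G.verts ≤ (Set.range (ends G)).ncard + 1 ∧ 
    ((Set.range (ends G)).ncard + 1 ≤ G.verts → ∃ χ, TwoCol G χ) := by
  classical
  let SG : SimpleGraph (Vtx G) := SimpleGraph.fromEdgeSet (Set.range (ends G))
  have hfin : Finite (Vtx G) := Quot.finite _
  have hadj : ∀ e, SG.Adj (vtx G (e, false)) (vtx G (e, true)) := by
    intro e
    rw [SimpleGraph.fromEdgeSet_adj]
    exact ⟨⟨e, rfl⟩, vtx_ne G hG e⟩
  have hcon' : SG.Connected := by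
    have hne : Nonempty (Vtx G) := ⟨vtx G (⟨0, hk⟩, false)⟩
    rw [SimpleGraph.connected_iff]
    refine ⟨?_, hne⟩
    intro a b
    obtain ⟨x, rfl⟩ := Quot.exists_rep a
    obtain ⟨y, rfl⟩ := Quot.exists_rep b
    have h1 : Quot.mk (rel G univ) x = Quot.mk (rel G univ) y := by
      have h2 : Nat.card (Quot (rel G univ)) = 1 := hcon
      rw [Nat.card_eq_one_iff_unique] at h2
      have := h2.1
      exact Subsingleton.elim _ _
    have h3 := inv_of_rel G univ (fun d => SG.connectedComponentMk (vtx G d)) 
      (fun d => by simp only [vtx_rot]) (fun e _ => by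
        rw [SimpleGraph.ConnectedComponent.eq]
        exact (hadj e).reachable) x y h1
    exact SimpleGraph.ConnectedComponent.exact h3
  have h1 : Nat.card SG.edgeSet ≤ (Set.range (ends G)).ncard := by
    rw [Nat.card_coe_set_eq]
    apply Set.ncard_le_ncard _ (Set.finite_range _)
    rw [SimpleGraph.edgeSet_fromEdgeSet]
    exact Set.sdiff_subset
  have h2 := hcon'.card_vert_le_card_edgeSet_add_one
  have h2' : Nat.card (Vtx G) = G.verts := rfl
  refine ⟨by omega, fun hcard => ?_⟩
  have h3 : SG.IsTree := by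
    rw [SimpleGraph.isTree_iff_connected_and_card]
    refine ⟨hcon', ?_⟩
    have h4 : Nat.card (Vtx G) = G.verts := rfl
    omega
  obtain ⟨C⟩ := h3.isBipartite
  have hC : ∀ e, C (vtx G (e, false)) ≠ C (vtx G (e, true)) := fun e => C.valid (hadj e)
  refine ⟨fun d => decide (C (vtx G d) = 0), ?_, ?_⟩
  · intro d
    simp only [vtx_rot]
  · rintro ⟨e, b⟩
    have h5 := hC e
    have h6 : ∀ a b : Fin 2, a ≠ b → (decide (a = 0) = !decide (b = 0)) := by decide
    cases b
    · exact h6 _ _ h5.symm
    · exact h6 _ _ h5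

theorem verts_le_classes (G : Ribbon k) (hk : 0 < k) (hG : NoLoop G) (hcon : G.comps univ = 1) : 
    G.verts ≤ (Set.range (ends G)).ncard + 1 := (two_col' G hk hG hcon).1

theorem two_col (G : Ribbon k) (hk : 0 < k) (hG : NoLoop G) (hcon : G.comps univ = 1) 
    (hcard : (Set.range (ends G)).ncard + 1 ≤ G.verts) : ∃ χ, TwoCol G χ := 
  (two_col' G hk hG hcon).2 hcard

/-- a connected graph with `k + 1` vertices is a tree: every edge is a bridge -/
theorem bridge_of_tree (G : Ribbon k) (hcon : G.comps univ = 1) (hv : G.verts = k + 1) (e : Fin k) : 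
    G.comps (univ.erase e) = 2 := by
  have h1 := T3a.mono G k ∅ (univ.erase e) (by
    rw [card_erase_of_mem (mem_univ e), card_univ, Fintype.card_fin]; omega) (empty_subset _)
  rw [comps_empty, card_empty, card_erase_of_mem (mem_univ e), card_univ, Fintype.card_fin, hv] at h1
  have h2 := T3a.comps_erase G univ e (mem_univ e)
  have hk : 0 < k := by have := e.2; omega
  omega

theorem verts_le (G : Ribbon k) (hcon : G.comps univ = 1) : G.verts ≤ k + 1 := by
  have h1 := T3a.mono G k ∅ univ (by simp) (empty_subset _)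
  rw [comps_empty, card_empty, card_univ, Fintype.card_fin, hcon] at h1
  omega

end Pool.Agent.NH45.OS
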