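import Pool.Agent.H891R2.DS.Defs
import Pool.Agent.TH561.PK.Defs

set_option autoImplicit false

/-!
OS5: the signs of the crossings of a knot diagram with a state whose circles are coloured with two
colours such that every crossing joins circles of different colours.
-/

namespace Pool.Agent.NH45.OS

open Finset LaurentPolynomial Pool.Agent.H891R2.Jones Pool.Agent.H891R2.MT Pool.Agent.H891R2.DS
open Pool.Agent.H891R2.MT.Ribbon (left right twistCrossing)

variable {k : ℕ}

theorem natAbs_sg (R : Finset (Fin k)) (e : Fin k) : (sg R e).natAbs = 1 := by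
  unfold sg; split_ifs <;> rfl

theorem fin_one : ∀ (n : ℕ) (_ : n = 1) (j : Fin n), j.castSucc = 0 ∧ j.succ = Fin.last n := by
  intro n hn
  subst hn
  decide

theorem tc_pos (R : Finset (Fin k)) (e : Fin k) (he : e ∉ R) (j : Fin (sg R e).natAbs) : 
    twistCrossing (sg R) e j = (right _ (e, false), left _ (e, true), right _ (e, true), 
      left _ (e, false)) := by
  obtain ⟨h1, h2⟩ := fin_one _ (natAbs_sg R e) j
  have h3 : (0 : ℤ) < sg R e := by unfold sg; rw [if_neg he]; norm_num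
  unfold twistCrossing
  rw [if_pos h3, h1, h2]
  rfl

theorem tc_neg (R : Finset (Fin k)) (e : Fin k) (he : e ∈ R) (j : Fin (sg R e).natAbs) : 
    twistCrossing (sg R) e j = (left _ (e, false), right _ (e, false), left _ (e, true), 
      right _ (e, true)) := by
  obtain ⟨h1, h2⟩ := fin_one _ (natAbs_sg R e) j
  have h3 : ¬ (0 : ℤ) < sg R e := by unfold sg; rw [if_pos he]; norm_num
  unfold twistCrossing
  rw [if_neg h3, h1, h2]
  rfl

theorem forall2_left {α β : Type} {r : α → β → Prop} {l : List α} {l' : List β} 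
    (h : List.Forall₂ r l l') (x : α) (hx : x ∈ l) : ∃ y ∈ l', r x y := by
  induction h with
  | nil => exact absurd hx List.not_mem_nil
  | cons hab _ ih =>
    rw [List.mem_cons] at hx
    rcases hx with rfl | hx
    · exact ⟨_, List.mem_cons_self, hab⟩
    · obtain ⟨y, hy, hr⟩ := ih hx
      exact ⟨y, List.mem_cons_of_mem _ hy, hr⟩

theorem forall2_right {α β : Type} {r : α → β → Prop} {l : List α} {l' : List β} 
    (h : List.Forall₂ r l l') (y : β) (hy : y ∈ l') : ∃ x ∈ l, r x y := by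
  induction h with
  | nil => exact absurd hy List.not_mem_nil
  | cons hab _ ih =>
    rw [List.mem_cons] at hy
    rcases hy with rfl | hy
    · exact ⟨_, List.mem_cons_self, hab⟩
    · obtain ⟨x, hx, hr⟩ := ih hy
      exact ⟨x, List.mem_cons_of_mem _ hx, hr⟩

theorem mem_link_arcs (Γ : Ribbon k) (R : Finset (Fin k)) (y : Ribbon.Pt (sg R) × Ribbon.Pt (sg R)) : 
    y ∈ (Γ.link (sg R)).arcs ↔ ∃ d, y = (left (sg R) d, right (sg R) (Γ.rot d)) := by
  unfold Ribbon.link
  simp only [List.mem_flatMap, List.mem_finRange, true_and, List.mem_cons, List.not_mem_nil, or_false]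
  constructor
  · rintro ⟨e, h | h⟩
    · exact ⟨_, h⟩
    · exact ⟨_, h⟩
  · rintro ⟨⟨e, b⟩, h⟩
    refine ⟨e, ?_⟩
    cases b
    · exact Or.inl h
    · exact Or.inr h

theorem mem_link_crossings (Γ : Ribbon k) (R : Finset (Fin k)) 
    (y : Ribbon.Pt (sg R) × Ribbon.Pt (sg R) × Ribbon.Pt (sg R) × Ribbon.Pt (sg R)) : 
    y ∈ (Γ.link (sg R)).crossings ↔ ∃ e j, y = twistCrossing (sg R) e j := by
  unfold Ribbon.link
  simp only [List.mem_flatMap, List.mem_finRange, true_and, List.mem_map]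
  constructor
  · rintro ⟨e, j, h⟩; exact ⟨e, j, h.symm⟩
  · rintro ⟨e, j, h⟩; exact ⟨e, j, h.symm⟩

section

variable {P : Type} [DecidableEq P] (D : Diagram P)

/-- an arc starts at `p` -/
def St (p : P) : Prop := p ∈ D.arcs.map Prod.fst

/-- an arc ends at `p` -/
def En (p : P) : Prop := p ∈ D.arcs.map Prod.snd

theorem two_le {l1 l2 l3 : List P} {p : P} (h : (l1 ++ l2 ++ l3).count p = 1) : 
    (p ∈ l1 → p ∈ l2 → False) ∧ (p ∈ l1 → p ∈ l3 → False) := by
  rw [List.count_append, List.count_append] at h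
  constructor
  · intro h1 h2
    rw [← List.one_le_count_iff] at h1 h2
    omega
  · intro h1 h2
    rw [← List.one_le_count_iff] at h1 h2
    omega

theorem under_true (hcl : D.IsClosed) (x : Crossing P) (hx : x ∈ D.crossings) (h : x.underFwd = true) :
    ¬ St D x.a ∧ ¬ En D x.c := by
  constructor
  · intro h1
    refine (two_le (hcl x.a).1).1 h1 ?_
    rw [List.mem_map]
    exact ⟨x, hx, by rw [if_pos h]⟩
  · intro h1
    refine (two_le (hcl x.c).2).1 h1 ?_
    rw [List.mem_map]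
    exact ⟨x, hx, by rw [if_pos h]⟩

theorem under_false (hcl : D.IsClosed) (x : Crossing P) (hx : x ∈ D.crossings) 
    (h : x.underFwd = false) : ¬ St D x.c ∧ ¬ En D x.a := by
  have h' : ¬ x.underFwd = true := by rw [h]; simp
  constructor
  · intro h1
    refine (two_le (hcl x.c).1).1 h1 ?_
    rw [List.mem_map]
    exact ⟨x, hx, by rw [if_neg h']⟩
  · intro h1
    refine (two_le (hcl x.a).2).1 h1 ?_
    rw [List.mem_map]
    exact ⟨x, hx, by rw [if_neg h']⟩

theorem over_true (hcl : D.IsClosed) (x : Crossing P) (hx : x ∈ D.crossings) (h : x.overFwd = true) :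
    ¬ St D x.b ∧ ¬ En D x.d := by
  constructor
  · intro h1
    refine (two_le (hcl x.b).1).2 h1 ?_
    rw [List.mem_map]
    exact ⟨x, hx, by rw [if_pos h]⟩
  · intro h1
    refine (two_le (hcl x.d).2).2 h1 ?_
    rw [List.mem_map]
    exact ⟨x, hx, by rw [if_pos h]⟩

theorem over_false (hcl : D.IsClosed) (x : Crossing P) (hx : x ∈ D.crossings) 
    (h : x.overFwd = false) : ¬ St D x.d ∧ ¬ En D x.b := by
  have h' : ¬ x.overFwd = true := by rw [h]; simp
  constructor
  · intro h1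
    refine (two_le (hcl x.d).1).2 h1 ?_
    rw [List.mem_map]
    exact ⟨x, hx, by rw [if_neg h']⟩
  · intro h1
    refine (two_le (hcl x.b).2).2 h1 ?_
    rw [List.mem_map]
    exact ⟨x, hx, by rw [if_neg h']⟩

end

section

variable (Γ : Ribbon k) (R : Finset (Fin k)) (D : Diagram (Ribbon.Pt (sg R)))
  (hD : Orients D (Γ.link (sg R))) (hcl : D.IsClosed)

include hD in
theorem arc_or (d : Fin k × Bool) : 
    (left (sg R) d, right (sg R) (Γ.rot d)) ∈ D.arcs ∨ (right (sg R) (Γ.rot d), left (sg R) d) ∈ D.arcs := by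
  obtain ⟨x, hx, h | h⟩ := forall2_right hD.1 _ ((mem_link_arcs Γ R _).2 ⟨d, rfl⟩)
  · rw [h] at hx; exact Or.inl hx
  · rw [h] at hx; exact Or.inr hx

include hD in
theorem crossing_at (e : Fin k) : ∃ x ∈ D.crossings, 
    (x.a, x.b, x.c, x.d) = if e ∈ R then (left (sg R) (e, false), right (sg R) (e, false), 
      left (sg R) (e, true), right (sg R) (e, true)) else 
      (right (sg R) (e, false), left (sg R) (e, true), right (sg R) (e, true), left (sg R) (e, false)) := by
  have h1 : twistCrossing (sg R) e ⟨0, by rw [natAbs_sg]; norm_num⟩ ∈ (Γ.link (sg R)).crossings := 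
    (mem_link_crossings Γ R _).2 ⟨e, _, rfl⟩
  rw [← hD.2, List.mem_map] at h1
  obtain ⟨x, hx, h⟩ := h1
  refine ⟨x, hx, ?_⟩
  split_ifs with he
  · rw [h, tc_neg R e he]
  · rw [h, tc_pos R e he]

include hD in
theorem crossing_of (x : Crossing (Ribbon.Pt (sg R))) (hx : x ∈ D.crossings) : ∃ e, 
    (x.a, x.b, x.c, x.d) = if e ∈ R then (left (sg R) (e, false), right (sg R) (e, false), 
      left (sg R) (e, true), right (sg R) (e, true)) else 
      (right (sg R) (e, false), left (sg R) (e, true), right (sg R) (e, true), left (sg R) (e, false)) := by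
  have h1 : (x.a, x.b, x.c, x.d) ∈ (Γ.link (sg R)).crossings := by
    rw [← hD.2, List.mem_map]
    exact ⟨x, hx, rfl⟩
  obtain ⟨e, j, h⟩ := (mem_link_crossings Γ R _).1 h1
  refine ⟨e, ?_⟩
  split_ifs with he
  · rw [h, tc_neg R e he]
  · rw [h, tc_pos R e he]

include hD in
theorem st_or_en_left (d : Fin k × Bool) : St D (left (sg R) d) ∨ En D (left (sg R) d) := by
  rcases arc_or Γ R D hD d with h | h
  · exact Or.inl (List.mem_map.2 ⟨_, h, rfl⟩)
  · exact Or.inr (List.mem_map.2 ⟨_, h, rfl⟩)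

include hD in
theorem st_or_en_right (d : Fin k × Bool) : St D (right (sg R) d) ∨ En D (right (sg R) d) := by
  rcases arc_or Γ R D hD (Γ.rot.symm d) with h | h
  · rw [Equiv.apply_symm_apply] at h
    exact Or.inr (List.mem_map.2 ⟨_, h, rfl⟩)
  · rw [Equiv.apply_symm_apply] at h
    exact Or.inl (List.mem_map.2 ⟨_, h, rfl⟩)

include hD in
/-- the points of a crossing -/
theorem st_or_en (x : Crossing (Ribbon.Pt (sg R))) (hx : x ∈ D.crossings) : 
    (St D x.a ∨ En D x.a) ∧ (St D x.b ∨ En D x.b) ∧ (St D x.c ∨ En D x.c) ∧ (St D x.d ∨ En D x.d) := by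
  obtain ⟨e, h⟩ := crossing_of Γ R D hD x hx
  have hl := st_or_en_left Γ R D hD
  have hr := st_or_en_right Γ R D hD
  split_ifs at h with he
  · simp only [Prod.mk.injEq] at h
    obtain ⟨h1, h2, h3, h4⟩ := h
    rw [h1, h2, h3, h4]
    exact ⟨hl _, hr _, hl _, hr _⟩
  · simp only [Prod.mk.injEq] at h
    obtain ⟨h1, h2, h3, h4⟩ := h
    rw [h1, h2, h3, h4]
    exact ⟨hr _, hl _, hr _, hl _⟩

include hD hcl in
theorem under_iff (x : Crossing (Ribbon.Pt (sg R))) (hx : x ∈ D.crossings) : 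
    (x.underFwd = true ↔ En D x.a) ∧ (x.underFwd = true ↔ ¬ St D x.a) ∧ 
    (x.underFwd = true ↔ St D x.c) ∧ (x.underFwd = true ↔ ¬ En D x.c) := by
  obtain ⟨h1, h2, h3, h4⟩ := st_or_en Γ R D hD x hx
  cases h : x.underFwd
  · have := under_false D hcl x hx h
    simp only [Bool.false_eq_true, false_iff]
    tauto
  · have := under_true D hcl x hx h
    simp only [true_iff]
    tauto

include hD hcl in
theorem over_iff (x : Crossing (Ribbon.Pt (sg R))) (hx : x ∈ D.crossings) : 
    (x.overFwd = true ↔ En D x.b) ∧ (x.overFwd = true ↔ ¬ St D x.b) ∧ 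
    (x.overFwd = true ↔ St D x.d) ∧ (x.overFwd = true ↔ ¬ En D x.d) := by
  obtain ⟨h1, h2, h3, h4⟩ := st_or_en Γ R D hD x hx
  cases h : x.overFwd
  · have := over_false D hcl x hx h
    simp only [Bool.false_eq_true, false_iff]
    tauto
  · have := over_true D hcl x hx h
    simp only [true_iff]
    tauto

theorem prop_aux (u a b c d : Prop) (h : (u ↔ a) ∧ (u ↔ ¬ b) ∧ (u ↔ c) ∧ (u ↔ ¬ d)) : 
    (c ↔ ¬ b) ∧ (b ↔ ¬ c) ∧ (d ↔ ¬ a) ∧ (a ↔ ¬ b) ∧ (b ↔ ¬ a) ∧ (d ↔ ¬ c) ∧ (c ↔ ¬ d) := by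
  tauto

include hD hcl in
/-- the two ends of the strands of a crossing -/
theorem flip_iff (e : Fin k) : 
    (St D (left (sg R) (e, true)) ↔ ¬ St D (left (sg R) (e, false))) ∧ 
    (En D (right (sg R) (e, true)) ↔ ¬ En D (right (sg R) (e, false))) ∧ 
    (En D (left (sg R) (e, false)) ↔ ¬ St D (left (sg R) (e, false))) ∧ 
    (En D (left (sg R) (e, true)) ↔ ¬ St D (left (sg R) (e, true))) ∧ 
    (St D (right (sg R) (e, false)) ↔ ¬ En D (right (sg R) (e, false))) ∧ 
    (St D (right (sg R) (e, true)) ↔ ¬ En D (right (sg R) (e, true))) := by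
  obtain ⟨x, hx, h⟩ := crossing_at Γ R D hD e
  have hu := under_iff Γ R D hD hcl x hx
  have ho := over_iff Γ R D hD hcl x hx
  split_ifs at h with he
  · simp only [Prod.mk.injEq] at h
    obtain ⟨h1, h2, h3, h4⟩ := h
    rw [h1, h3] at hu
    rw [h2, h4] at ho
    obtain ⟨a1, a2, a3, a4, a5, a6, a7⟩ := prop_aux _ _ _ _ _ hu
    obtain ⟨b1, b2, b3, b4, b5, b6, b7⟩ := prop_aux _ _ _ _ _ ho
    exact ⟨a1, b3, a4, a6, b5, b7⟩
  · simp only [Prod.mk.injEq] at h
    obtain ⟨h1, h2, h3, h4⟩ := h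
    rw [h1, h3] at hu
    rw [h2, h4] at ho
    obtain ⟨a1, a2, a3, a4, a5, a6, a7⟩ := prop_aux _ _ _ _ _ hu
    obtain ⟨b1, b2, b3, b4, b5, b6, b7⟩ := prop_aux _ _ _ _ _ ho
    exact ⟨b2, a3, b6, b4, a5, a7⟩

include hD hcl in
theorem arc_iff (d : Fin k × Bool) : St D (left (sg R) d) ↔ En D (right (sg R) (Γ.rot d)) := by
  have h1 := flip_iff Γ R D hD hcl d.1
  have h2 := flip_iff Γ R D hD hcl (Γ.rot d).1
  rcases arc_or Γ R D hD d with h | h
  · have h3 : St D (left (sg R) d) := List.mem_map.2 ⟨_, h, rfl⟩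
    have h4 : En D (right (sg R) (Γ.rot d)) := List.mem_map.2 ⟨_, h, rfl⟩
    exact ⟨fun _ => h4, fun _ => h3⟩
  · have h3 : En D (left (sg R) d) := List.mem_map.2 ⟨_, h, rfl⟩
    have h4 : St D (right (sg R) (Γ.rot d)) := List.mem_map.2 ⟨_, h, rfl⟩
    have h5 : ¬ St D (left (sg R) d) := by
      obtain ⟨e, b⟩ := d
      cases b
      · exact h1.2.2.1.1 h3
      · exact h1.2.2.2.1.1 h3
    have h6 : ¬ En D (right (sg R) (Γ.rot d)) := by
      generalize Γ.rot d = d' at h2 h4 ⊢
      obtain ⟨e, b⟩ := d'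
      cases b
      · exact h2.2.2.2.2.1.1 h4
      · exact h2.2.2.2.2.2.1 h4
    exact ⟨fun h => absurd h h5, fun h => absurd h h6⟩

end

end Pool.Agent.NH45.OS
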