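import Pool.Agent.NH45.OS4
import Pool.Agent.NH45.OS5

set_option autoImplicit false

/-!
OS6: the writhe of a knot diagram with a state whose circles are coloured with two
colours such that every crossing joins circles of different colours.
-/

namespace Pool.Agent.NH45.OS

open Finset LaurentPolynomial Pool.Agent.H891R2.Jones Pool.Agent.H891R2.MT Pool.Agent.H891R2.DS
open Pool.Agent.H891R2.MT.Ribbon (left right twistCrossing)
open Pool.Agent.TH561.PK (Piece IsKnot)

variable {k : ℕ}

section

variable (Γ : Ribbon k) (R S : Finset (Fin k)) (D : Diagram (Ribbon.Pt (sg R)))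
  (hD : Orients D (Γ.link (sg R))) (hcl : D.IsClosed) (χ : Fin k × Bool → Bool) 
  (hχ : TwoCol (stateGraph Γ S) χ)

open Classical in
/-- the direction of the arc at the left point of `d` -/
noncomputable def LL (d : Fin k × Bool) : Bool := decide (St D (left (sg R) d))

open Classical in
/-- the direction of the arc at the right point of `d` -/
noncomputable def RR (d : Fin k × Bool) : Bool := decide (En D (right (sg R) d))

/-- the colour of the circle at the right side of `d` -/
def XX (d : Fin k × Bool) : Bool := if d.1 ∈ S then !(χ d) else χ d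

theorem not_eq_decide {p q : Prop} [Decidable p] [Decidable q] (h : p ↔ ¬ q) : 
    decide p = !(decide q) := by
  by_cases hq : q
  · have hp : ¬ p := fun hp => h.1 hp hq
    simp [hp, hq]
  · have hp : p := h.2 hq
    simp [hp, hq]

theorem bool_eq_decide {b : Bool} {p : Prop} [Decidable p] (h : b = true ↔ p) : b = decide p := by
  by_cases hp : p
  · rw [h.2 hp]; simp [hp]
  · have : b = false := by
      cases b
      · rfl
      · exact absurd (h.1 rfl) hp
    rw [this]; simp [hp]

theorem bool_eq_not {b : Bool} {p : Prop} [Decidable p] (h : b = true ↔ ¬ p) : b = !(decide p) := by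
  rw [bool_eq_decide h]
  by_cases hp : p <;> simp [hp]

include hD hcl in
theorem LL_flip (d : Fin k × Bool) : LL R D (H891R2.MT.flip d) = !(LL R D d) := by
  classical
  obtain ⟨e, b⟩ := d
  have h := (flip_iff Γ R D hD hcl e).1
  unfold LL
  cases b
  · exact not_eq_decide h
  · show decide (St D (left (sg R) (e, false))) = !decide (St D (left (sg R) (e, true)))
    rw [not_eq_decide h, Bool.not_not]

include hD hcl in
theorem RR_flip (d : Fin k × Bool) : RR R D (H891R2.MT.flip d) = !(RR R D d) := by
  classical
  obtain ⟨e, b⟩ := d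
  have h := (flip_iff Γ R D hD hcl e).2.1
  unfold RR
  cases b
  · exact not_eq_decide h
  · show decide (En D (right (sg R) (e, false))) = !decide (En D (right (sg R) (e, true)))
    rw [not_eq_decide h, Bool.not_not]

include hD hcl in
theorem LL_eq (d : Fin k × Bool) : LL R D d = RR R D (Γ.rot d) := by
  unfold LL RR
  rw [decide_eq_decide]
  exact arc_iff Γ R D hD hcl d

include hχ in
theorem XX_rot (d : Fin k × Bool) : XX S χ (Γ.rot d) = χ d := by
  have h1 := hχ.1 d
  have h2 : (stateGraph Γ S).rot d = if (Γ.rot d).1 ∈ S then H891R2.MT.flip (Γ.rot d) else Γ.rot d := rfl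
  rw [h2] at h1
  unfold XX
  split_ifs at h1 ⊢ with h
  · rw [← h1, hχ.2]
  · exact h1

include hχ in
theorem XX_flip (d : Fin k × Bool) : XX S χ (H891R2.MT.flip d) = !(XX S χ d) := by
  unfold XX
  have h1 : (H891R2.MT.flip d).1 = d.1 := rfl
  rw [h1, hχ.2]
  split_ifs <;> rfl

/-- the colour of a point -/
noncomputable def Psi (p : Ribbon.Pt (sg R)) : Bool := 
  if p.2.1 = 0 then (if p.2.2 then xor (LL R D (p.1, false)) (χ (p.1, false)) 
    else xor (RR R D (p.1, false)) (XX S χ (p.1, false))) 
  else (if p.2.2 then xor (RR R D (p.1, true)) (XX S χ (p.1, true)) 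
    else xor (LL R D (p.1, true)) (χ (p.1, true)))

theorem last_ne (e : Fin k) : (Fin.last (sg R e).natAbs) ≠ 0 := by
  intro h
  have h1 := congrArg Fin.val h
  have h2 := natAbs_sg R e
  simp at h1
  omega

theorem Psi_left (d : Fin k × Bool) : 
    Psi R S D χ (left (sg R) d) = xor (LL R D d) (χ d) := by
  obtain ⟨e, b⟩ := d
  cases b
  · rfl
  · have h1 : left (sg R) (e, true) = ⟨e, Fin.last _, false⟩ := rfl
    rw [h1]
    unfold Psi
    dsimp only
    rw [if_neg (last_ne R e), if_neg (by simp)]

theorem Psi_right (d : Fin k × Bool) : 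
    Psi R S D χ (right (sg R) d) = xor (RR R D d) (XX S χ d) := by
  obtain ⟨e, b⟩ := d
  cases b
  · rfl
  · have h1 : right (sg R) (e, true) = ⟨e, Fin.last _, true⟩ := rfl
    rw [h1]
    unfold Psi
    dsimp only
    rw [if_neg (last_ne R e), if_pos rfl]

include hD hcl hχ in
theorem Psi_piece (p q : Ribbon.Pt (sg R)) (h : Piece D p q) : Psi R S D χ p = Psi R S D χ q := by
  have harc : ∀ d, Psi R S D χ (left (sg R) d) = Psi R S D χ (right (sg R) (Γ.rot d)) := by
    intro d
    rw [Psi_left, Psi_right, LL_eq Γ R D hD hcl, XX_rot Γ S χ hχ]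
  have hll : ∀ e, Psi R S D χ (left (sg R) (e, false)) = Psi R S D χ (left (sg R) (e, true)) := by
    intro e
    have h1 := LL_flip Γ R D hD hcl (e, false)
    have h2 := hχ.2 (e, false)
    have h3 : H891R2.MT.flip (e, false) = (e, true) := rfl
    rw [h3] at h1 h2
    rw [Psi_left, Psi_left, h1, h2]
    cases LL R D (e, false) <;> cases χ (e, false) <;> rfl
  have hrr : ∀ e, Psi R S D χ (right (sg R) (e, false)) = Psi R S D χ (right (sg R) (e, true)) := by
    intro e
    have h1 := RR_flip Γ R D hD hcl (e, false)
    have h2 := XX_flip Γ S χ hχ (e, false)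
    have h3 : H891R2.MT.flip (e, false) = (e, true) := rfl
    rw [h3] at h1 h2
    rw [Psi_right, Psi_right, h1, h2]
    cases RR R D (e, false) <;> cases XX S χ (e, false) <;> rfl
  rcases h with h | ⟨x, hx, h⟩
  · obtain ⟨y, hy, h1⟩ := forall2_left hD.1 _ h
    obtain ⟨d, rfl⟩ := (mem_link_arcs Γ R _).1 hy
    rcases h1 with h1 | h1
    · rw [Prod.mk.injEq] at h1
      rw [h1.1, h1.2]
      exact harc d
    · rw [Prod.swap_prod_mk, Prod.mk.injEq] at h1
      rw [h1.1, h1.2]
      exact (harc d).symm
  · obtain ⟨e, h1⟩ := crossing_of Γ R D hD x hx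
    split_ifs at h1 with he
    · simp only [Prod.mk.injEq] at h1
      obtain ⟨h1, h2, h3, h4⟩ := h1
      rcases h with ⟨rfl, rfl⟩ | ⟨rfl, rfl⟩
      · rw [h1, h3]; exact hll e
      · rw [h2, h4]; exact hrr e
    · simp only [Prod.mk.injEq] at h1
      obtain ⟨h1, h2, h3, h4⟩ := h1
      rcases h with ⟨rfl, rfl⟩ | ⟨rfl, rfl⟩
      · rw [h1, h3]; exact hrr e
      · rw [h2, h4]; exact (hll e).symm

include hD hcl hχ in
theorem Psi_const (hkn : IsKnot D) (p q : Ribbon.Pt (sg R)) : Psi R S D χ p = Psi R S D χ q := by
  have h := hkn p q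
  induction h with
  | rel x y h => exact Psi_piece Γ R S D hD hcl χ hχ x y h
  | refl x => rfl
  | symm x y _ ih => exact ih.symm
  | trans x y z _ _ ih1 ih2 => exact ih1.trans ih2

include hD hcl hχ in
theorem RR_LL (hkn : IsKnot D) (e : Fin k) : 
    RR R D (e, false) = if e ∈ S then !(LL R D (e, false)) else LL R D (e, false) := by
  have h := Psi_const Γ R S D hD hcl χ hχ hkn (left (sg R) (e, false)) (right (sg R) (e, false))
  rw [Psi_left, Psi_right] at h
  unfold XX at h
  simp only at h
  split_ifs at h ⊢ with he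
  · revert h
    cases RR R D (e, false) <;> cases LL R D (e, false) <;> cases χ (e, false) <;> simp
  · revert h
    cases RR R D (e, false) <;> cases LL R D (e, false) <;> cases χ (e, false) <;> simp

include hD hcl hχ in
theorem sign_eq (hkn : IsKnot D) (x : Crossing (Ribbon.Pt (sg R))) (hx : x ∈ D.crossings) : 
    x.sign = if x.a.1 ∈ Asm R S then 1 else -1 := by
  classical
  obtain ⟨e, h⟩ := crossing_of Γ R D hD x hx
  have hu := under_iff Γ R D hD hcl x hx
  have ho := over_iff Γ R D hD hcl x hx
  have hrl := RR_LL Γ R S D hD hcl χ hχ hkn e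
  have hfl := flip_iff Γ R D hD hcl e
  unfold Asm
  simp only [mem_filter, mem_univ, true_and]
  unfold Crossing.sign
  split_ifs at h with he
  · simp only [Prod.mk.injEq] at h
    obtain ⟨h1, h2, h3, h4⟩ := h
    have hxe : x.a.1 = e := by rw [h1]; rfl
    rw [hxe]
    have hu' : x.underFwd = !(LL R D (e, false)) := by
      have h5 : x.underFwd = true ↔ ¬ St D (left (sg R) (e, false)) := by
        rw [← h1]; exact hu.2.1
      unfold LL
      exact bool_eq_not h5
    have ho' : x.overFwd = RR R D (e, false) := by
      have h5 : x.overFwd = true ↔ En D (right (sg R) (e, false)) := by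
        rw [← h2]; exact ho.1
      unfold RR
      exact bool_eq_decide h5
    rw [hu', ho', hrl]
    by_cases heS : e ∈ S
    · simp [he, heS]
    · simp [he, heS]
  · simp only [Prod.mk.injEq] at h
    obtain ⟨h1, h2, h3, h4⟩ := h
    have hxe : x.a.1 = e := by rw [h1]; rfl
    rw [hxe]
    have hu' : x.underFwd = RR R D (e, false) := by
      have h5 : x.underFwd = true ↔ En D (right (sg R) (e, false)) := by
        rw [← h1]; exact hu.1
      unfold RR
      exact bool_eq_decide h5
    have ho' : x.overFwd = LL R D (e, false) := by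
      have h5 : x.overFwd = true ↔ St D (left (sg R) (e, false)) := by
        rw [← h4]; exact ho.2.2.1
      unfold LL
      exact bool_eq_decide h5
    rw [hu', ho', hrl]
    by_cases heS : e ∈ S
    · simp [he, heS]
    · simp [he, heS]

include hD in
/-- the writhe is determined by the signs -/
theorem writhe_of_sign (g : Fin k → ℤ) (hg : ∀ x ∈ D.crossings, x.sign = g x.a.1) : 
    D.writhe = ∑ e, g e := by
  unfold Diagram.writhe
  have h1 : D.crossings.map Crossing.sign = 
      (D.crossings.map (fun x => (x.a, x.b, x.c, x.d))).map (fun q => g q.1.1) := by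
    rw [List.map_map]
    apply List.map_congr_left
    intro x hx
    exact hg x hx
  rw [h1, hD.2]
  unfold Ribbon.link
  simp only
  rw [List.map_flatMap]
  have h2 : ∀ e : Fin k, ((List.finRange (sg R e).natAbs).map (twistCrossing (sg R) e)).map 
      (fun q => g q.1.1) = [g e] := by
    intro e
    rw [List.map_map]
    have h3 : ∀ j ∈ List.finRange (sg R e).natAbs, 
        ((fun q => g q.1.1) ∘ (twistCrossing (sg R) e)) j = g e := by
      intro j _
      simp only [Function.comp_apply]
      by_cases he : e ∈ R
      · rw [tc_neg R e he]; rfl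
      · rw [tc_pos R e he]; rfl
    rw [List.map_congr_left h3, List.map_const', List.length_finRange, natAbs_sg]
    rfl
  have h4 : (List.finRange k).flatMap (fun e => ((List.finRange (sg R e).natAbs).map 
      (twistCrossing (sg R) e)).map (fun q => g q.1.1)) = (List.finRange k).map g := by
    have h5 : (fun e => ((List.finRange (sg R e).natAbs).map 
      (twistCrossing (sg R) e)).map (fun q => g q.1.1)) = fun e => [g e] := funext h2
    rw [h5]
    induction (List.finRange k) with
    | nil => rfl
    | cons a l ih => rw [List.flatMap_cons, ih]; rfl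
  rw [h4, Fin.sum_univ_def]

include hD hcl hχ in
theorem writhe_eq (hkn : IsKnot D) : D.writhe = 2 * (Asm R S).card - k := by
  rw [writhe_of_sign Γ R D hD (fun e => if e ∈ Asm R S then 1 else -1) 
    (fun x hx => sign_eq Γ R S D hD hcl χ hχ hkn x hx)]
  rw [sum_ite, sum_const, sum_const, filter_mem_eq_inter, univ_inter]
  have h1 : (univ.filter (fun e => e ∉ Asm R S)) = (Asm R S)ᶜ := by
    ext x; simp
  rw [h1, card_compl, Fintype.card_fin]
  have h2 : (Asm R S).card ≤ k := by
    have := card_le_univ (Asm R S)
    rwa [Fintype.card_fin] at this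
  simp only [nsmul_eq_mul]
  push_cast [Nat.cast_sub h2]
  ring

end

end Pool.Agent.NH45.OS
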