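import Pool.Agent.NH45.OS1
import Pool.Agent.NH45.OS6
import Pool.Agent.H891R2.DS.Fin
import Pool.Agent.H891R2.DS.Final

set_option autoImplicit false

/-!
OS7: assembly.
-/

namespace Pool.Agent.NH45.OS

open Finset LaurentPolynomial Pool.Agent.H891R2.Jones Pool.Agent.H891R2.MT Pool.Agent.H891R2.DS
open Pool.Agent.TH561.PK (Piece IsKnot)

variable {k : ℕ}

/-- the first Betti number of the connected graph which is obtained from `G` if all edges with the
same ends are replaced by one edge -/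
noncomputable def betti (G : Ribbon k) : ℤ := (Set.range (ends G)).ncard - G.verts + 1

theorem noLoop_of_dom (Γ : Ribbon k) (hΓ : Γ.Planar) (S M : Finset (Fin k)) 
    (h : Dom (stateGraph Γ S) M) : NoLoop (stateGraph Γ S) := 
  (rank_ineq (stateGraph Γ S) M (rank_bridgeless Γ hΓ S M h)).2

theorem sg_connected (Γ : Ribbon k) (hΓ : Γ.Planar) (S : Finset (Fin k)) : 
    (stateGraph Γ S).comps univ = 1 := by
  rw [sg_comps_univ]; exact hΓ.1

/-- one side -/
theorem side2 (Γ : Ribbon k) (hΓ : Γ.Planar) (hk : 0 < k) (S M : Finset (Fin k)) 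
    (h : Dom3 (stateGraph Γ S) M) : 
    |(T (2 * M.card - k) * PP (stateGraph Γ S) M : ℤ[T;T⁻¹]).coeff 
      (6 * M.card - k - 2 * (stateGraph Γ S).verts + 2 + 4)| = betti (stateGraph Γ S) := by
  have hG := noLoop_of_dom Γ hΓ S M h.dom
  have hr : Rank3 (stateGraph Γ S) M := fun H h1 h2 => rank3 Γ hΓ S M h H h1 h2
  have h1 := second (stateGraph Γ S) hk M hr hG (fun F hF => curves_of_class Γ hΓ S hG F hF)
  have h2 := card_classes (stateGraph Γ S) M hr hG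
  have h3 := verts_le_classes (stateGraph Γ S) hk hG (sg_connected Γ hΓ S)
  rw [Fin'.coeff_T_mul]
  have e : (6 * (M.card : ℤ) - k - 2 * (stateGraph Γ S).verts + 2 + 4) - (2 * M.card - k) = 
      4 * M.card - 2 * (stateGraph Γ S).verts + 6 := by ring
  rw [e, h1, abs_mul, abs_pow, abs_neg, abs_one, one_pow, one_mul, abs_of_nonpos (by omega)]
  unfold betti
  omega

/-- coefficients of `D.fPoly` -/
theorem fPoly_coeff (Γ : Ribbon k) (hk : 0 < k) (R : Finset (Fin k)) 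
    (D : Diagram (Ribbon.Pt (sg R))) (hD : Orients D (Γ.link (sg R))) :
    ∃ s : ℤ, |s| = 1 ∧ ∀ j, D.fPoly.coeff j = s * 
      ((Γ.link (sg R)).std.bracket).coeff (j + 3 * D.writhe) := by
  have hP : Nonempty (Ribbon.Pt (sg R)) := ⟨⟨⟨0, hk⟩, 0, true⟩⟩
  have hbr : D.bracket = (Γ.link (sg R)).std.bracket := T6.bracket_orients D _ hD
  refine ⟨if Even D.writhe then 1 else -1, by split_ifs <;> simp, ?_⟩
  intro j
  unfold Diagram.fPoly
  rw [hbr]
  have e : j + 3 * D.writhe = j - (-3 * D.writhe) := by ring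
  rw [e]
  by_cases hw : Even D.writhe
  · rw [if_pos hw, if_pos hw, one_mul, one_mul, Fin'.coeff_T_mul]
  · rw [if_neg hw, if_neg hw]
    have e0 : (-1 : ℤ[T;T⁻¹]) * T (-3 * D.writhe) * (Γ.link (sg R)).std.bracket = 
        -(T (-3 * D.writhe) * (Γ.link (sg R)).std.bracket) := by ring
    rw [e0]
    have : (-(T (-3 * D.writhe) * (Γ.link (sg R)).std.bracket)).coeff j = 
        -((T (-3 * D.writhe) * (Γ.link (sg R)).std.bracket).coeff j) := rfl
    rw [this, Fin'.coeff_T_mul, neg_one_mul]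

theorem low (Γ : Ribbon k) (hΓ : Γ.Planar) (hk : 0 < k) (R S : Finset (Fin k)) 
    (h : Dom3 (stateGraph Γ S) (Asm R S)) 
    (D : Diagram (Ribbon.Pt (sg R))) (hD : Orients D (Γ.link (sg R))) (m : ℤ) 
    (hm : m = 6 * (Asm R S).card - k - 2 * (stateGraph Γ S).verts + 2 - 3 * D.writhe) : 
    (∀ j, D.fPoly.coeff j ≠ 0 → m ≤ j) ∧ |D.fPoly.coeff m| = 1 ∧ 
      |D.fPoly.coeff (m + 4)| = betti (stateGraph Γ S) := by
  obtain ⟨s, hs, hc⟩ := fPoly_coeff Γ hk R D hD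
  obtain ⟨a1, a2⟩ := Fin'.side Γ hΓ hk S _ h.dom
  have a3 := side2 Γ hΓ hk S _ h
  refine ⟨?_, ?_, ?_⟩
  · intro j hj
    rw [hc, bracket_state Γ hk R S] at hj
    have := a1 _ (right_ne_zero_of_mul hj)
    linarith
  · rw [hc, abs_mul, hs, one_mul, bracket_state Γ hk R S, ← a2, hm]
    congr 2
    ring
  · rw [hc, abs_mul, hs, one_mul, bracket_state Γ hk R S, ← a3, hm]
    congr 2
    ring

theorem high (Γ : Ribbon k) (hΓ : Γ.Planar) (hk : 0 < k) (R S : Finset (Fin k)) 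
    (h : Dom3 (stateGraph Γ S) (Asm R S)ᶜ) 
    (D : Diagram (Ribbon.Pt (sg R))) (hD : Orients D (Γ.link (sg R))) (m : ℤ) 
    (hm : m = -(6 * ((Asm R S)ᶜ).card - k - 2 * (stateGraph Γ S).verts + 2) - 3 * D.writhe) : 
    (∀ j, D.fPoly.coeff j ≠ 0 → j ≤ m) ∧ |D.fPoly.coeff m| = 1 ∧ 
      |D.fPoly.coeff (m - 4)| = betti (stateGraph Γ S) := by
  obtain ⟨s, hs, hc⟩ := fPoly_coeff Γ hk R D hD
  obtain ⟨a1, a2⟩ := Fin'.side Γ hΓ hk S _ h.dom
  have a3 := side2 Γ hΓ hk S _ h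
  refine ⟨?_, ?_, ?_⟩
  · intro j hj
    rw [hc, bracket_state' Γ hk R S] at hj
    have := a1 _ (right_ne_zero_of_mul hj)
    linarith
  · rw [hc, abs_mul, hs, one_mul, bracket_state' Γ hk R S, ← a2, hm]
    congr 2
    ring
  · rw [hc, abs_mul, hs, one_mul, bracket_state' Γ hk R S, ← a3, hm]
    congr 2
    ring

theorem coeff_one (j : ℤ) : (1 : ℤ[T;T⁻¹]).coeff j = if j = 0 then 1 else 0 := by
  rw [← T_zero]
  rw [show (T 0 : ℤ[T;T⁻¹]).coeff j = if (0 : ℤ) = j then 1 else 0 from Finsupp.single_apply]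
  simp only [eq_comm]

/-- if `f = 1`, all crossings are nugatory -/
theorem nugatory_of_tree (Γ : Ribbon k) (hΓ : Γ.Planar) (S : Finset (Fin k)) 
    (hv : (stateGraph Γ S).verts = k + 1) (e : Fin k) : Nugatory Γ e := by
  have h1 := bridge_of_tree (stateGraph Γ S) (sg_connected Γ hΓ S) hv e
  unfold Nugatory
  by_cases he : e ∈ S
  · rw [Nug.erase_of_mem Γ hΓ S e he] at h1
    right; omega
  · rw [Nug.erase_of_not_mem Γ hΓ S e he] at h1
    left; omega

theorem knot_low (Γ : Ribbon k) (hΓ : Γ.Planar) (hk : 0 < k) (R S : Finset (Fin k)) 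
    (h : Dom3 (stateGraph Γ S) (Asm R S)) 
    (D : Diagram (Ribbon.Pt (sg R))) (hD : Orients D (Γ.link (sg R))) (hcl : D.IsClosed) 
    (hkn : IsKnot D) (hne : ∃ e, ¬ Nugatory Γ e) : D.fPoly ≠ 1 := by
  intro hf
  obtain ⟨m, hm⟩ : ∃ m, m = 6 * ((Asm R S).card : ℤ) - k - 2 * (stateGraph Γ S).verts + 2 - 
    3 * D.writhe := ⟨_, rfl⟩
  obtain ⟨-, b2, b3⟩ := low Γ hΓ hk R S h D hD m hm
  rw [hf, coeff_one] at b2 b3
  have hm0 : m = 0 := by
    by_contra h0
    rw [if_neg h0] at b2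
    simp at b2
  rw [hm0, if_neg (by norm_num), abs_zero] at b3
  have hG := noLoop_of_dom Γ hΓ S _ h.dom
  obtain ⟨χ, hχ⟩ := two_col (stateGraph Γ S) hk hG (sg_connected Γ hΓ S) (by unfold betti at b3; omega)
  have hw := writhe_eq Γ R S D hD hcl χ hχ hkn
  obtain ⟨e, he⟩ := hne
  exact he (nugatory_of_tree Γ hΓ S (by omega) e)

theorem knot_high (Γ : Ribbon k) (hΓ : Γ.Planar) (hk : 0 < k) (R S : Finset (Fin k)) 
    (h : Dom3 (stateGraph Γ S) (Asm R S)ᶜ) 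
    (D : Diagram (Ribbon.Pt (sg R))) (hD : Orients D (Γ.link (sg R))) (hcl : D.IsClosed) 
    (hkn : IsKnot D) (hne : ∃ e, ¬ Nugatory Γ e) : D.fPoly ≠ 1 := by
  intro hf
  obtain ⟨m, hm⟩ : ∃ m, m = -(6 * (((Asm R S)ᶜ).card : ℤ) - k - 2 * (stateGraph Γ S).verts + 2) - 
    3 * D.writhe := ⟨_, rfl⟩
  obtain ⟨-, b2, b3⟩ := high Γ hΓ hk R S h D hD m hm
  rw [hf, coeff_one] at b2 b3
  have hm0 : m = 0 := by
    by_contra h0
    rw [if_neg h0] at b2
    simp at b2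
  rw [hm0, if_neg (by norm_num), abs_zero] at b3
  have hG := noLoop_of_dom Γ hΓ S _ h.dom
  obtain ⟨χ, hχ⟩ := two_col (stateGraph Γ S) hk hG (sg_connected Γ hΓ S) (by unfold betti at b3; omega)
  have hw := writhe_eq Γ R S D hD hcl χ hχ hkn
  have hc : (Asm R S).card + ((Asm R S)ᶜ).card = k := by
    rw [card_add_card_compl, Fintype.card_fin]
  obtain ⟨e, he⟩ := hne
  exact he (nugatory_of_tree Γ hΓ S (by omega) e)

end Pool.Agent.NH45.OS
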