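import Pool.Agent.NH45.Exp
import Pool.Agent.H891R2.ZO.Main

set_option autoImplicit false

/-!
Twist sites: the set of the `w` for which the diagram `O.fill w` has a given normalised bracket up to units is a
union of a number of cosets which only depends on the number of sites.
-/

namespace Pool.Agent.NH45.Unif

open Finset LaurentPolynomial Pool.Agent.H891R2.Jones Pool.Agent.H891R2.MT Pool.Agent.H891R2.SI
open Pool.Agent.H891R2.ZO (IsPow)
open Pool.Agent.NH45.Exp

variable {k : ℕ}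

/-- the normalised bracket is the bracket up to a unit -/
theorem fPoly_unit {P : Type} (D : Diagram P) : ∃ u, IsPow u ∧ D.fPoly = u * D.bracket := by
  refine ⟨(if Even D.writhe then 1 else -1) * T (-3 * D.writhe), ?_, rfl⟩
  by_cases h : Even D.writhe
  · rw [if_pos h, one_mul]; exact IsPow.T _
  · rw [if_neg h]; exact ⟨_, Or.inr (by ring)⟩

/-- the vectors of a coset of `2 ℤ^k` with the unit `s A^n` -/
def lamv (R : Option (Finset (Fin k))) : (Fin k → ℤ) × ℤ →+ ℤ where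
  toFun x := match R with
    | some R => -8 * nS x.1 R
    | none => x.2 - 2 * ∑ e, x.1 e
  map_zero' := by
    cases R <;> simp [nS]
  map_add' x y := by
    cases R <;> simp [nS, Finset.sum_add_distrib] <;> ring

noncomputable def Cv (O : Sites k) (g : ℤ[T;T⁻¹]) (p : Fin k → ℤ) (s : ℤ[T;T⁻¹])
    (R : Option (Finset (Fin k))) : ℤ[T;T⁻¹] :=
  match R with
  | some R => ((-1) ^ (nS p R).natAbs * T (-4 * nS p R)) * Zp O R
  | none => -(s * (-T 2 - T (-2)) ^ k * g * T (-∑ e, p e))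

theorem nS_add (p v : Fin k → ℤ) (R : Finset (Fin k)) : nS (p + (2 : ℤ) • v) R = nS p R + 2 * nS v R := by
  simp [nS, Finset.sum_add_distrib, Finset.mul_sum]

theorem parity (p v : Fin k → ℤ) (R : Finset (Fin k)) :
    (-1 : ℤ[T;T⁻¹]) ^ (nS (p + (2 : ℤ) • v) R).natAbs = (-1) ^ (nS p R).natAbs := by
  rw [nS_add, neg_one_pow_eq_pow_mod_two, neg_one_pow_eq_pow_mod_two (nS p R).natAbs]
  congr 1
  omega

theorem equation (hk : 0 < k) (O : Sites k) (g : ℤ[T;T⁻¹]) (p v : Fin k → ℤ) (s : ℤ[T;T⁻¹]) (n : ℤ) :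
    (O.fill (p + (2 : ℤ) • v)).std.bracket = s * T n * g ↔
      ∑ R : Option (Finset (Fin k)), Cv O g p s R * T (lamv R (v, n)) = 0 := by
  have hd : (-T 2 - T (-2) : ℤ[T;T⁻¹]) ^ k * T (-∑ e, (p + (2 : ℤ) • v) e) ≠ 0 := by
    refine mul_ne_zero (pow_ne_zero _ Pool.Agent.H891R2.ZO.delta_ne) ?_
    intro h
    have h1 : (T (∑ e, (p + (2 : ℤ) • v) e) * T (-∑ e, (p + (2 : ℤ) • v) e) : ℤ[T;T⁻¹]) = 1 := by
      rw [← T_add, add_neg_cancel, T_zero]
    rw [h, mul_zero] at h1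
    exact zero_ne_one h1
  rw [← mul_right_inj' hd, S3 O hk]
  rw [Fintype.sum_option]
  have e1 : ∀ R : Finset (Fin k), Cv O g p s (some R) * T (lamv (some R) (v, n)) =
      ((-1) ^ (nS (p + (2 : ℤ) • v) R).natAbs * T (-4 * nS (p + (2 : ℤ) • v) R)) * Zp O R := by
    intro R
    rw [parity, nS_add]
    have : (T (-4 * (nS p R + 2 * nS v R)) : ℤ[T;T⁻¹]) = T (-4 * nS p R) * T (-8 * nS v R) := by
      rw [← T_add]; congr 1; ring
    rw [this]
    simp only [Cv, lamv, AddMonoidHom.coe_mk, ZeroHom.coe_mk]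
    ring
  rw [Finset.sum_congr rfl (fun R _ => e1 R)]
  have e2 : Cv O g p s none * T (lamv none (v, n)) =
      -((-T 2 - T (-2)) ^ k * T (-∑ e, (p + (2 : ℤ) • v) e) * (s * T n * g)) := by
    have : (T (-∑ e, (p + (2 : ℤ) • v) e) : ℤ[T;T⁻¹]) * T n = T (-∑ e, p e) * T (n - 2 * ∑ e, v e) := by
      rw [← T_add, ← T_add]
      congr 1
      simp [Finset.sum_add_distrib, Finset.mul_sum]
      ring
    simp only [Cv, lamv, AddMonoidHom.coe_mk, ZeroHom.coe_mk]
    linear_combination (-(s * (-T 2 - T (-2)) ^ k * g)) * this.symm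
  rw [e2, neg_add_eq_zero]
  exact eq_comm

/-- the set of the `w` whose diagram has the normalised bracket `g` up to units -/
def Val (O : Sites k) (g : ℤ[T;T⁻¹]) : Set (Fin k → ℤ) :=
  {w | ∃ D : Diagram (O.P ⊕ Ribbon.Pt w), Orients D (O.fill w) ∧ ∃ u, IsPow u ∧ D.fPoly = u * g}

theorem orients_std {P : Type} (U : UDiagram P) : Orients U.std U := by
  constructor
  · show List.Forall₂ _ U.arcs U.arcs
    apply List.forall₂_same.2
    intro x _
    exact Or.inl rfl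
  · show (U.crossings.map (fun x => (⟨x.1, x.2.1, x.2.2.1, x.2.2.2, true, true⟩ : Crossing P))).map
      (fun x => (x.a, x.b, x.c, x.d)) = U.crossings
    rw [List.map_map]
    exact List.map_id _

theorem mem_Val (hk : 0 < k) (O : Sites k) (g : ℤ[T;T⁻¹]) (w : Fin k → ℤ) :
    w ∈ Val O g ↔ ∃ s ∈ ({1, -1} : Finset ℤ[T;T⁻¹]), ∃ n : ℤ, (O.fill w).std.bracket = s * T n * g := by
  have hP : Nonempty (O.P ⊕ Ribbon.Pt w) := ⟨.inl (O.corner ⟨0, hk⟩ false false)⟩
  constructor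
  · rintro ⟨D, hD, u, hu, hf⟩
    obtain ⟨u', hu', hf'⟩ := fPoly_unit D
    rw [T6.bracket_orients D _ hD] at hf'
    obtain ⟨v, hv, hv'⟩ := hu'.inv
    have h1 : (O.fill w).std.bracket = (v * u) * g := by
      rw [mul_assoc, ← hf, hf', ← mul_assoc, hv', one_mul]
    obtain ⟨n, hn | hn⟩ := hv.mul hu
    · exact ⟨1, by simp, n, by rw [h1, hn, one_mul]⟩
    · exact ⟨-1, by simp, n, by rw [h1, hn]; ring⟩
  · rintro ⟨s, hs, n, h⟩
    refine ⟨(O.fill w).std, orients_std _, ?_⟩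
    obtain ⟨u', hu', hf'⟩ := fPoly_unit (O.fill w).std
    have hs' : IsPow (s * T n) := by
      rw [Finset.mem_insert, Finset.mem_singleton] at hs
      rcases hs with rfl | rfl
      · rw [one_mul]; exact IsPow.T n
      · exact ⟨n, Or.inr (by ring)⟩
    exact ⟨u' * (s * T n), hu'.mul hs', by rw [hf', h]; ring⟩

/-- the vectors `w ≡ b` modulo `2` with `w(S) - w(S') = b(S) - b(S')` for all pairs `(S, S') ∈ P` -/
def Cl (b : Fin k → ℤ) (P : Finset (Finset (Fin k) × Finset (Fin k))) : Set (Fin k → ℤ) :=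
  {w | (∀ e, w e % 2 = b e % 2) ∧ ∀ q ∈ P, nS w q.1 - nS w q.2 = nS b q.1 - nS b q.2}

theorem mem_Cl (b : Fin k → ℤ) (P : Finset (Finset (Fin k) × Finset (Fin k))) (w : Fin k → ℤ) :
    w ∈ Cl b P ↔ ∃ v : Fin k → ℤ, w = b + (2 : ℤ) • v ∧ ∀ q ∈ P, nS v q.1 = nS v q.2 := by
  constructor
  · rintro ⟨h1, h2⟩
    have hw : w = b + (2 : ℤ) • (fun e => (w e - b e) / 2) := by
      funext e
      have := h1 e
      simp only [Pi.add_apply, Pi.smul_apply, smul_eq_mul]
      omega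
    refine ⟨_, hw, ?_⟩
    intro q hq
    have h3 := h2 q hq
    generalize (fun e => (w e - b e) / 2) = v at hw
    rw [hw, nS_add, nS_add] at h3
    omega
  · rintro ⟨v, rfl, h⟩
    refine ⟨fun e => ?_, fun q hq => ?_⟩
    · simp only [Pi.add_apply, Pi.smul_apply, smul_eq_mul]
      omega
    · rw [nS_add, nS_add, h q hq]
      ring

/-- a union of at most `N` classes -/
def CU (N : ℕ) (E : Set (Fin k → ℤ)) : Prop :=
  ∃ F : Finset ((Fin k → ℤ) × Finset (Finset (Fin k) × Finset (Fin k))), F.card ≤ N ∧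
    E = ⋃ p ∈ F, Cl p.1 p.2

theorem CU.union {N N' : ℕ} {E E' : Set (Fin k → ℤ)} (h : CU N E) (h' : CU N' E') : CU (N + N') (E ∪ E') := by
  classical
  obtain ⟨F, h1, h2⟩ := h
  obtain ⟨F', h1', h2'⟩ := h'
  refine ⟨F ∪ F', (Finset.card_union_le _ _).trans (by omega), ?_⟩
  rw [h2, h2']
  ext a
  simp only [Set.mem_union, Set.mem_iUnion, Finset.mem_union, exists_prop]
  constructor
  · rintro (⟨p, hp, h⟩ | ⟨p, hp, h⟩)
    · exact ⟨p, Or.inl hp, h⟩
    · exact ⟨p, Or.inr hp, h⟩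
  · rintro ⟨p, hp | hp, h⟩
    · exact Or.inl ⟨p, hp, h⟩
    · exact Or.inr ⟨p, hp, h⟩

theorem CU.iUnion {κ : Type} (s : Finset κ) {N : ℕ} (E : κ → Set (Fin k → ℤ))
    (h : ∀ i ∈ s, CU N (E i)) : CU (s.card * N) (⋃ i ∈ s, E i) := by
  classical
  induction s using Finset.induction_on with
  | empty => exact ⟨∅, by simp, by simp⟩
  | insert a s ha ih =>
    rw [Finset.card_insert_of_notMem ha, Finset.set_biUnion_insert, Nat.succ_mul, add_comm]
    exact (h a (Finset.mem_insert_self _ _)).union (ih (fun i hi => h i (Finset.mem_insert_of_mem hi)))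

/-- the solutions project to classes -/
theorem CU.of_KU {n N : ℕ} (e : Option (Finset (Fin k)) ≃ Fin n) (p : Fin k → ℤ) (E : Set ((Fin k → ℤ) × ℤ))
    (h : KU (fun i => lamv (e.symm i)) N E) : CU N ((fun x => p + (2 : ℤ) • x.1) '' E) := by
  classical
  obtain ⟨F, h1, h2⟩ := h
  let A : Finset (Fin n × Fin n) → Finset (Fin k) → Prop := fun P R =>
    (e (some R), e none) ∈ P ∨ (e none, e (some R)) ∈ P
  let P0 : Finset (Fin n × Fin n) → Finset (Finset (Fin k) × Finset (Fin k)) := fun P =>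
    Finset.univ.filter (fun q => (e (some q.1), e (some q.2)) ∈ P ∨ (A P q.1 ∧ A P q.2))
  have hs : ∀ (R : Finset (Fin k)) (x : (Fin k → ℤ) × ℤ), lamv (some R) x = -8 * nS x.1 R := fun _ _ => rfl
  have hn : ∀ (x : (Fin k → ℤ) × ℤ), lamv none x = x.2 - 2 * ∑ e, x.1 e := fun _ => rfl
  refine ⟨F.image (fun q => (p + (2 : ℤ) • q.1.1, P0 q.2)), Finset.card_image_le.trans h1, ?_⟩
  ext w
  simp only [Set.mem_image, Set.mem_iUnion, Finset.mem_image, exists_prop, h2, Set.mem_ofPred_eq]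
  constructor
  · rintro ⟨x, ⟨q, hq, hx⟩, rfl⟩
    refine ⟨_, ⟨q, hq, rfl⟩, ?_⟩
    rw [mem_Cl]
    refine ⟨x.1 - q.1.1, by simp only [smul_sub]; abel, ?_⟩
    intro r hr
    rw [Finset.mem_filter] at hr
    have key : ∀ R, A q.2 R → (x - q.1).2 - 2 * ∑ e, (x - q.1).1 e = -8 * nS (x - q.1).1 R := by
      rintro R (hR | hR)
      · have := hx _ hR
        simp only [Equiv.symm_apply_apply, hs, hn] at this
        exact this.symm
      · have := hx _ hR
        simp only [Equiv.symm_apply_apply, hs, hn] at this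
        exact this
    rcases hr.2 with h3 | ⟨h3, h4⟩
    · have := hx _ h3
      simp only [Equiv.symm_apply_apply, hs] at this
      have h5 : (x - q.1).1 = x.1 - q.1.1 := rfl
      rw [h5] at this
      omega
    · have h5 := key _ h3
      have h6 := key _ h4
      have h7 : (x - q.1).1 = x.1 - q.1.1 := rfl
      rw [h7] at h5 h6
      omega
  · rintro ⟨_, ⟨q, hq, rfl⟩, hw⟩
    rw [mem_Cl] at hw
    obtain ⟨v, rfl, hv⟩ := hw
    have hv' : ∀ r : Finset (Fin k) × Finset (Fin k),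
        ((e (some r.1), e (some r.2)) ∈ q.2 ∨ (A q.2 r.1 ∧ A q.2 r.2)) → nS v r.1 = nS v r.2 :=
      fun r hr => hv r (Finset.mem_filter.2 ⟨Finset.mem_univ _, hr⟩)
    obtain ⟨m, hm⟩ : ∃ m : ℤ, ∀ R, A q.2 R → m - 2 * ∑ e, v e = -8 * nS v R := by
      by_cases hA : ∃ R, A q.2 R
      · obtain ⟨R, hR⟩ := hA
        refine ⟨-8 * nS v R + 2 * ∑ e, v e, fun R' hR' => ?_⟩
        have := hv' (R, R') (Or.inr ⟨hR, hR'⟩)
        simp only at this
        omega
      · exact ⟨0, fun R hR => absurd ⟨R, hR⟩ hA⟩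
    refine ⟨(q.1.1 + v, q.1.2 + m), ⟨q, hq, ?_⟩, by simp only [smul_add]; abel⟩
    intro r hr
    have hx : ((q.1.1 + v, q.1.2 + m) : (Fin k → ℤ) × ℤ) - q.1 = (v, m) := by
      ext <;> simp
    rw [hx]
    obtain ⟨r1, r2⟩ := r
    obtain ⟨o1, rfl⟩ := e.surjective r1
    obtain ⟨o2, rfl⟩ := e.surjective r2
    simp only [Equiv.symm_apply_apply]
    rcases o1 with _ | R1 <;> rcases o2 with _ | R2
    · rfl
    · rw [hs, hn]
      exact hm R2 (Or.inr hr)
    · rw [hs, hn]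
      exact (hm R1 (Or.inl hr)).symm
    · rw [hs, hs]
      have := hv' (R1, R2) (Or.inl hr)
      simp only at this ⊢
      rw [this]

theorem main (hk : 0 < k) (O : Sites k) (g : ℤ[T;T⁻¹]) :
    CU (2 ^ (k + 1) * (2 ^ k + 1).superFactorial) (Val O g) := by
  classical
  have hcard : Fintype.card (Option (Finset (Fin k))) = 2 ^ k + 1 := by simp
  let e : Option (Finset (Fin k)) ≃ Fin (2 ^ k + 1) := Fintype.equivFinOfCardEq hcard
  have hone : (1 : ℤ[T;T⁻¹]) ≠ -1 := by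
    intro h
    have h1 : (1 : ℤ[T;T⁻¹]).coeff 0 = (-1 : ℤ[T;T⁻¹]).coeff 0 := by rw [← h]
    have h2 : (-1 : ℤ[T;T⁻¹]).coeff 0 = -((1 : ℤ[T;T⁻¹]).coeff 0) := rfl
    rw [h2, ← T_zero, Exp.coeff_T] at h1
    norm_num at h1
  have hU : Val O g = ⋃ q ∈ (Finset.univ : Finset (Fin k → Fin 2)) ×ˢ ({1, -1} : Finset ℤ[T;T⁻¹]),
      ((fun x : (Fin k → ℤ) × ℤ => (fun i => ((q.1 i : ℕ) : ℤ)) + (2 : ℤ) • x.1) ''
        sol (fun i => lamv (e.symm i)) (fun i => Cv O g (fun i => ((q.1 i : ℕ) : ℤ)) q.2 (e.symm i))) := by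
    ext w
    simp only [Set.mem_iUnion, Set.mem_image, exists_prop, Finset.mem_product, Finset.mem_univ, true_and]
    rw [mem_Val hk]
    have hsol : ∀ (q : (Fin k → Fin 2) × ℤ[T;T⁻¹]) (x : (Fin k → ℤ) × ℤ),
        x ∈ sol (fun i => lamv (e.symm i)) (fun i => Cv O g (fun i => ((q.1 i : ℕ) : ℤ)) q.2 (e.symm i)) ↔
        (O.fill ((fun i => ((q.1 i : ℕ) : ℤ)) + (2 : ℤ) • x.1)).std.bracket = q.2 * T x.2 * g := by
      intro q x
      rw [equation hk O g _ x.1 q.2 x.2]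
      simp only [sol, Set.mem_ofPred_eq]
      rw [← Equiv.sum_comp e]
      simp
    constructor
    · rintro ⟨s, hs, n, h⟩
      have hw : (fun i => (((⟨(w i % 2).toNat, by omega⟩ : Fin 2) : ℕ) : ℤ)) + (2 : ℤ) • (fun i => w i / 2) = w := by
        funext i
        simp only [Pi.add_apply, Pi.smul_apply, smul_eq_mul]
        omega
      refine ⟨(fun i => ⟨(w i % 2).toNat, by omega⟩, s), hs, (fun i => w i / 2, n), ?_, hw⟩
      rw [hsol]
      simp only
      rw [hw]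
      exact h
    · rintro ⟨q, hs, x, hx, rfl⟩
      rw [hsol] at hx
      exact ⟨q.2, hs, x.2, hx⟩
  rw [hU]
  have h2 := CU.iUnion ((Finset.univ : Finset (Fin k → Fin 2)) ×ˢ ({1, -1} : Finset ℤ[T;T⁻¹]))
    (N := (2 ^ k + 1).superFactorial) _ (fun q _ => CU.of_KU e (fun i => ((q.1 i : ℕ) : ℤ)) _
      (Exp.main _ _ (fun i => lamv (e.symm i)) (fun i => Cv O g (fun i => ((q.1 i : ℕ) : ℤ)) q.2 (e.symm i))))
  rw [Finset.card_product, Finset.card_pair hone, Finset.card_univ, Fintype.card_fun, Fintype.card_fin,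
      Fintype.card_fin, ← pow_succ] at h2
  exact h2

/-- a class is a single point or contains a line -/
theorem point_or_line (b : Fin k → ℤ) (P : Finset (Finset (Fin k) × Finset (Fin k))) :
    Cl b P = {b} ∨ ∃ v : Fin k → ℤ, v ≠ 0 ∧ ∀ t : ℤ, b + t • v ∈ Cl b P := by
  by_cases h : ∃ v : Fin k → ℤ, v ≠ 0 ∧ ∀ q ∈ P, nS v q.1 = nS v q.2
  · obtain ⟨v, hv, hP⟩ := h
    right
    refine ⟨(2 : ℤ) • v, ?_, ?_⟩
    · intro h0
      apply hv
      funext e
      have := congrFun h0 e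
      simp only [Pi.smul_apply, smul_eq_mul, Pi.zero_apply] at this ⊢
      omega
    · intro t
      rw [mem_Cl]
      refine ⟨t • v, by rw [smul_comm], ?_⟩
      intro q hq
      have e1 : ∀ R : Finset (Fin k), nS (t • v) R = t * nS v R := by
        intro R
        simp [nS, Finset.mul_sum]
      rw [e1, e1, hP q hq]
  · left
    push Not at h
    ext w
    rw [mem_Cl, Set.mem_singleton_iff]
    constructor
    · rintro ⟨v, rfl, hv⟩
      have : v = 0 := by
        by_contra h0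
        obtain ⟨q, hq, h1⟩ := h v h0
        exact h1 (hv q hq)
      rw [this, smul_zero, add_zero]
    · rintro rfl
      exact ⟨0, by simp, fun q _ => by simp [nS]⟩

theorem finite_or_line (hk : 0 < k) (O : Sites k) (g : ℤ[T;T⁻¹]) :
    ((Val O g).Finite ∧ (Val O g).ncard ≤ 2 ^ (k + 1) * (2 ^ k + 1).superFactorial) ∨
      ∃ b v : Fin k → ℤ, v ≠ 0 ∧ ∀ t : ℤ, b + t • v ∈ Val O g := by
  classical
  obtain ⟨F, h1, h2⟩ := main hk O g
  by_cases h : ∃ p ∈ F, ∃ v : Fin k → ℤ, v ≠ 0 ∧ ∀ t : ℤ, p.1 + t • v ∈ Cl p.1 p.2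
  · obtain ⟨p, hp, v, hv, hl⟩ := h
    right
    refine ⟨p.1, v, hv, fun t => ?_⟩
    rw [h2]
    exact Set.mem_biUnion (by exact hp) (hl t)
  · left
    push Not at h
    have h3 : Val O g = (F.image Prod.fst : Finset (Fin k → ℤ)) := by
      rw [h2]
      ext w
      simp only [Set.mem_iUnion, exists_prop, Finset.coe_image, Set.mem_image, Finset.mem_coe]
      constructor
      · rintro ⟨p, hp, hw⟩
        rcases point_or_line p.1 p.2 with h4 | ⟨v, hv, h4⟩
        · rw [h4, Set.mem_singleton_iff] at hw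
          exact ⟨p, hp, hw.symm⟩
        · obtain ⟨t, ht⟩ := h p hp v hv
          exact absurd (h4 t) ht
      · rintro ⟨p, hp, rfl⟩
        exact ⟨p, hp, (mem_Cl _ _ _).2 ⟨0, by simp, fun q _ => by simp [nS]⟩⟩
    rw [h3]
    refine ⟨Finset.finite_toSet _, ?_⟩
    rw [Set.ncard_coe_finset]
    exact Finset.card_image_le.trans h1

end Pool.Agent.NH45.Unif
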